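import Mathlib

set_option autoImplicit false

open Finset

namespace SQF

/-- The `k`-th elementary symmetric function of the numbers `x p`, `p ∈ P`. -/
noncomputable def ek (x : ℕ → ℝ) (P : Finset ℕ) (k : ℕ) : ℝ :=
  ∑ F ∈ P.powersetCard k, ∏ p ∈ F, x p

/-- Number of `t < R`, `t ≡ c mod q`, whose residue mod `p ^ 2` lies in `Ω p` for all `p ∈ F`. -/
def cnt (R q c : ℕ) (Ω : ℕ → Finset ℕ) (F : Finset ℕ) : ℕ :=
  ((Finset.range R).filter (fun t => t % q = c ∧ ∀ p ∈ F, t % p ^ 2 ∈ Ω p)).card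

/-- Number of `t < R`, `t ≡ c mod q`, whose residue mod `p ^ 2` is outside `Ω p` for all `p ∈ P`. -/
def srv (R q c : ℕ) (Ω : ℕ → Finset ℕ) (P : Finset ℕ) : ℕ :=
  ((Finset.range R).filter (fun t => t % q = c ∧ ∀ p ∈ P, t % p ^ 2 ∉ Ω p)).card

/-- Indicator of `t mod p ^ 2 ∈ Ω p`. -/
noncomputable def ind (Ω : ℕ → Finset ℕ) (t p : ℕ) : ℝ := if t % p ^ 2 ∈ Ω p then 1 else 0

/-- Density of `Ω p`. -/
noncomputable def den (Ω : ℕ → Finset ℕ) (p : ℕ) : ℝ := ((Ω p).card : ℝ) / (p : ℝ) ^ 2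

/-- The primes in `(a, b]`. -/
def pr (a b : ℕ) : Finset ℕ := (Finset.Ioc a b).filter Nat.Prime

/-- The sieving product. -/
noncomputable def PI (Ω : ℕ → Finset ℕ) (h : ℕ) : ℝ := ∏ p ∈ pr (2 * h) (16 * h ^ 2), (1 - den Ω p)

/-- The forbidden residues mod `p ^ 2`. -/
def Om (D : ℕ) (S : Finset (ℕ × ℕ)) (p : ℕ) : Finset ℕ :=
  (Finset.range (p ^ 2)).filter (fun ρ => ∃ s ∈ S, p ^ 2 ∣ s.1 + s.2 * D * ρ)

/-- The length of the sieving interval. -/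
def RR (h : ℕ) : ℕ := 256 * h ^ 6 * 1024 ^ h * (16 * h ^ 4) ^ (4 * h)

/-- Bound for one step. -/
def BB (h : ℕ) : ℕ := 256 ^ h * RR h

end SQF
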