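import Pool.Agent.Helper353.SQF.Defs

set_option autoImplicit false

open Finset

namespace SQF



theorem BB_mono (h k : ℕ) (hk : h ≤ k) : BB h ≤ BB k := by
  rcases Nat.eq_zero_or_pos h with h0 | h0
  · rw [h0]
    have : BB 0 = 0 := by
      unfold BB RR
      simp
    rw [this]
    exact Nat.zero_le _
  · have hk0 : 0 < k := by omega
    have e1 : (256:ℕ) ^ h ≤ 256 ^ k := Nat.pow_le_pow_right (by norm_num) hk
    have e2 : 256 * h ^ 6 ≤ 256 * k ^ 6 := Nat.mul_le_mul_left _ (Nat.pow_le_pow_left hk 6)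
    have e3 : (1024:ℕ) ^ h ≤ 1024 ^ k := Nat.pow_le_pow_right (by norm_num) hk
    have e4 : 16 * h ^ 4 ≤ 16 * k ^ 4 := Nat.mul_le_mul_left _ (Nat.pow_le_pow_left hk 4)
    have e5 : 0 < 16 * k ^ 4 := by positivity
    have e6 : (16 * h ^ 4) ^ (4 * h) ≤ (16 * k ^ 4) ^ (4 * k) :=
      (Nat.pow_le_pow_left e4 _).trans (Nat.pow_le_pow_right e5 (by omega))
    unfold BB RR
    exact Nat.mul_le_mul e1 (Nat.mul_le_mul (Nat.mul_le_mul e2 e3) e6)

end SQF
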