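import Pool.Agent.Helper353.SQF.Defs

set_option autoImplicit false

open Finset

namespace SQF



theorem den_half (Ω : ℕ → Finset ℕ) (h p : ℕ) (hh : 1 ≤ h) (hp : 2 * h < p)
    (hW : (Ω p).card ≤ h ^ 2) : 0 ≤ den Ω p ∧ den Ω p ≤ 1 / 2 := by
  have h1 : ((Ω p).card : ℝ) ≤ (h : ℝ) ^ 2 := by exact_mod_cast hW
  have h2 : 2 * (h : ℝ) < (p : ℝ) := by exact_mod_cast hp
  have h3 : (1 : ℝ) ≤ (h : ℝ) := by exact_mod_cast hh
  have hp0 : (0 : ℝ) < (p : ℝ) := by linarith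
  unfold den
  refine ⟨by positivity, ?_⟩
  rw [div_le_iff₀ (by positivity)]
  nlinarith

end SQF
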