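import Pool.Agent.Helper353.SQF.Defs

set_option autoImplicit false

open Finset

namespace SQF

theorem inv_sq (a b : ℕ) (ha : 1 ≤ a) : ∑ p ∈ pr a b, 1 / (p : ℝ) ^ 2 ≤ 1 / (a : ℝ) := by
  rcases le_or_gt a b with h | h
  · have h1 := sum_Ioc_inv_sq_le_sub (α := ℝ) (by omega : a ≠ 0) h
    have h2 : ∑ p ∈ pr a b, 1 / (p : ℝ) ^ 2 ≤ ∑ p ∈ Ioc a b, 1 / (p : ℝ) ^ 2 := by
      apply Finset.sum_le_sum_of_subset_of_nonneg
      · exact Finset.filter_subset _ _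
      · intro i _ _
        positivity
    have h3 : ∑ p ∈ Ioc a b, 1 / (p : ℝ) ^ 2 = ∑ p ∈ Ioc a b, ((p : ℝ) ^ 2)⁻¹ := by
      simp [one_div]
    have h4 : (0 : ℝ) ≤ (b : ℝ)⁻¹ := by positivity
    rw [one_div]
    linarith
  · have : pr a b = ∅ := by
      unfold pr
      rw [Finset.Ioc_eq_empty (by omega)]
      simp
    rw [this]
    simp

end SQF
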