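import Pool.Agent.Helper353.SQF.Defs
import Pool.Agent.Helper353.SQF.P_inv_sq

set_option autoImplicit false

open Finset

namespace SQF



theorem kappa (Ω : ℕ → Finset ℕ) (h : ℕ) (hh : 1 ≤ h)
    (hW : ∀ p ∈ pr (2 * h) (16 * h ^ 2), (Ω p).card ≤ h ^ 2) :
    ∑ p ∈ pr (2 * h) (16 * h ^ 2), den Ω p ≤ (h : ℝ) / 2 := by
  have hpos : (0 : ℝ) < (h : ℝ) := by exact_mod_cast hh
  have h1 : ∑ p ∈ pr (2 * h) (16 * h ^ 2), den Ω p ≤
      ∑ p ∈ pr (2 * h) (16 * h ^ 2), (h : ℝ) ^ 2 * (1 / (p : ℝ) ^ 2) := by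
    apply Finset.sum_le_sum
    intro p hp
    have h2 : ((Ω p).card : ℝ) ≤ (h : ℝ) ^ 2 := by exact_mod_cast hW p hp
    unfold den
    rw [mul_one_div]
    exact div_le_div_of_nonneg_right h2 (by positivity)
  have h3 := inv_sq (2 * h) (16 * h ^ 2) (by omega)
  rw [← Finset.mul_sum] at h1
  refine h1.trans ((mul_le_mul_of_nonneg_left h3 (by positivity)).trans (le_of_eq ?_))
  push_cast
  field_simp

end SQF
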