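import Pool.Agent.Helper353.SQF.Defs

set_option autoImplicit false

open Finset

namespace SQF



theorem prod_low (x : ℕ → ℝ) (P : Finset ℕ) (h : ℕ) (hx : ∀ p ∈ P, 0 ≤ x p ∧ x p ≤ 1 / 2)
    (hs : ∑ p ∈ P, x p ≤ (h : ℝ) / 2) : (1 / 2 : ℝ) ^ h ≤ ∏ p ∈ P, (1 - x p) := by
  have hlog : Real.log (1 / 2) < 0 := Real.log_neg (by norm_num) (by norm_num)
  have hexp : Real.exp (Real.log (1 / 2)) = 1 / 2 := Real.exp_log (by norm_num)
  have key : ∀ y : ℝ, 0 ≤ y → y ≤ 1 / 2 → Real.exp (2 * y * Real.log (1 / 2)) ≤ 1 - y := by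
    intro y h0 h1
    have h2 := convexOn_exp.2 (Set.mem_univ (0 : ℝ)) (Set.mem_univ (Real.log (1 / 2)))
      (show (0 : ℝ) ≤ 1 - 2 * y by linarith) (show (0 : ℝ) ≤ 2 * y by linarith) (by ring)
    simp only [smul_eq_mul, mul_zero, zero_add, Real.exp_zero, mul_one] at h2
    rw [hexp] at h2
    linarith
  have h1 : ∏ p ∈ P, Real.exp (2 * x p * Real.log (1 / 2)) ≤ ∏ p ∈ P, (1 - x p) :=
    Finset.prod_le_prod (fun p _ => (Real.exp_pos _).le)
      (fun p hp => key (x p) (hx p hp).1 (hx p hp).2)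
  refine le_trans ?_ h1
  rw [← Real.exp_sum]
  have h2 : (1 / 2 : ℝ) ^ h = Real.exp ((h : ℝ) * Real.log (1 / 2)) := by
    rw [Real.exp_nat_mul, hexp]
  rw [h2]
  apply Real.exp_le_exp.2
  rw [← Finset.sum_mul, ← Finset.mul_sum]
  nlinarith

end SQF
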