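import Pool.Agent.Helper353.SQF.Defs
import Pool.Agent.Helper353.SQF.P_kappa
import Pool.Agent.Helper353.SQF.P_den_half
import Pool.Agent.Helper353.SQF.P_prod_low

set_option autoImplicit false

open Finset

namespace SQF



theorem PI_low (Ω : ℕ → Finset ℕ) (h : ℕ) (hh : 1 ≤ h)
    (hW : ∀ p ∈ pr (2 * h) (16 * h ^ 2), (Ω p).card ≤ h ^ 2) :
    (1 / 2 : ℝ) ^ h ≤ PI Ω h := by
  unfold PI
  refine prod_low (den Ω) _ h (fun p hp => ?_) (kappa Ω h hh hW)
  have h1 : 2 * h < p := (Finset.mem_Ioc.1 (Finset.mem_filter.1 hp).1).1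
  exact den_half Ω h p hh h1 (hW p hp)

end SQF
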