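import Pool.Agent.Helper353.SQF.Defs

set_option autoImplicit false

open Finset

namespace SQF



theorem ek_insert (x : ℕ → ℝ) (P : Finset ℕ) (a : ℕ) (ha : a ∉ P) (k : ℕ) :
    ek x (insert a P) (k + 1) = ek x P (k + 1) + x a * ek x P k := by
  unfold ek
  rw [Finset.powersetCard_succ_insert ha, Finset.sum_union]
  · congr 1
    rw [Finset.sum_image, Finset.mul_sum]
    · refine Finset.sum_congr rfl fun F hF => ?_
      rw [Finset.prod_insert]
      exact fun h => ha ((Finset.mem_powersetCard.1 hF).1 h)
    · intro F hF G hG h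
      have hF' : a ∉ F := fun h => ha ((Finset.mem_powersetCard.1 (by simpa using hF)).1 h)
      have hG' : a ∉ G := fun h => ha ((Finset.mem_powersetCard.1 (by simpa using hG)).1 h)
      rw [← Finset.erase_insert hF', ← Finset.erase_insert hG', h]
  · rw [Finset.disjoint_left]
    intro F hF hG
    obtain ⟨G, _, rfl⟩ := Finset.mem_image.1 hG
    exact ha ((Finset.mem_powersetCard.1 hF).1 (Finset.mem_insert_self a G))

end SQF
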