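import Pool.Agent.Helper353.SQF.Defs
import Pool.Agent.Helper353.SQF.P_ek_insert

set_option autoImplicit false

open Finset

namespace SQF



theorem bonf_zero (x : ℕ → ℝ) (P : Finset ℕ) : ek x P 0 = 1 := by
  unfold ek
  rw [Finset.powersetCard_zero, Finset.sum_singleton, Finset.prod_empty]

theorem bonf_empty (x : ℕ → ℝ) (k : ℕ) : ek x ∅ (k + 1) = 0 := by
  unfold ek
  have h : (∅ : Finset ℕ).powersetCard (k + 1) = ∅ := by
    rw [Finset.powersetCard_eq_empty]
    simp
  rw [h, Finset.sum_empty]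

theorem bonf_step (x : ℕ → ℝ) (P : Finset ℕ) (a : ℕ) (ha : a ∉ P) (r : ℕ) :
    ∑ k ∈ range (r + 1), (-1 : ℝ) ^ k * ek x (insert a P) k =
      ∑ k ∈ range (r + 1), (-1 : ℝ) ^ k * ek x P k - x a * ∑ k ∈ range r, (-1 : ℝ) ^ k * ek x P k := by
  rw [Finset.sum_range_succ', Finset.sum_range_succ', bonf_zero, bonf_zero]
  have h : ∑ k ∈ range r, (-1 : ℝ) ^ (k + 1) * ek x (insert a P) (k + 1) =
      ∑ k ∈ range r, (-1 : ℝ) ^ (k + 1) * ek x P (k + 1) -
        x a * ∑ k ∈ range r, (-1 : ℝ) ^ k * ek x P k := by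
    rw [Finset.mul_sum, ← Finset.sum_sub_distrib]
    apply Finset.sum_congr rfl
    intro k _
    rw [ek_insert x P a ha k]
    ring
  rw [h]
  ring

theorem bonf (x : ℕ → ℝ) (P : Finset ℕ) (r : ℕ) (hx : ∀ p ∈ P, 0 ≤ x p ∧ x p ≤ 1) :
    |(∏ p ∈ P, (1 - x p)) - ∑ k ∈ range (r + 1), (-1 : ℝ) ^ k * ek x P k| ≤ ek x P (r + 1) := by
  induction P using Finset.induction_on generalizing r with
  | empty =>
    rw [Finset.prod_empty, Finset.sum_range_succ', bonf_zero, bonf_empty]
    have h : ∑ k ∈ range r, (-1 : ℝ) ^ (k + 1) * ek x ∅ (k + 1) = 0 := by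
      apply Finset.sum_eq_zero
      intro k _
      rw [bonf_empty, mul_zero]
    rw [h]
    simp
  | insert a P ha ih =>
    have hxP : ∀ p ∈ P, 0 ≤ x p ∧ x p ≤ 1 := fun p hp => hx p (Finset.mem_insert_of_mem hp)
    have hxa := hx a (Finset.mem_insert_self a P)
    have ih' : ∀ r, |(∏ p ∈ P, (1 - x p)) - ∑ k ∈ range (r + 1), (-1 : ℝ) ^ k * ek x P k| ≤
        ek x P (r + 1) := fun r => ih r hxP
    have hS : |(∏ p ∈ P, (1 - x p)) - ∑ k ∈ range r, (-1 : ℝ) ^ k * ek x P k| ≤ ek x P r := by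
      cases r with
      | zero =>
        rw [Finset.sum_range_zero, sub_zero, bonf_zero, abs_of_nonneg]
        · apply Finset.prod_le_one
          · intro p hp
            have := hxP p hp
            linarith
          · intro p hp
            have := hxP p hp
            linarith
        · apply Finset.prod_nonneg
          intro p hp
          have := hxP p hp
          linarith
      | succ r => exact ih' r
    rw [Finset.prod_insert ha, bonf_step x P a ha r, ek_insert x P a ha r]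
    have e : (1 - x a) * ∏ p ∈ P, (1 - x p) -
        (∑ k ∈ range (r + 1), (-1 : ℝ) ^ k * ek x P k - x a * ∑ k ∈ range r, (-1 : ℝ) ^ k * ek x P k) =
        ((∏ p ∈ P, (1 - x p)) - ∑ k ∈ range (r + 1), (-1 : ℝ) ^ k * ek x P k) -
          x a * ((∏ p ∈ P, (1 - x p)) - ∑ k ∈ range r, (-1 : ℝ) ^ k * ek x P k) := by
      ring
    rw [e]
    refine (abs_sub _ _).trans ?_
    rw [abs_mul, abs_of_nonneg hxa.1]
    exact add_le_add (ih' r) (mul_le_mul_of_nonneg_left hS hxa.1)

end SQF
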