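import Pool.Agent.Helper353.SQF.Defs

set_option autoImplicit false

open Finset

namespace SQF



theorem cnt_base (R q c : ℕ) (Ω : ℕ → Finset ℕ) (hq : 0 < q) (hc : c < q) :
    |(cnt R q c Ω ∅ : ℝ) - (R : ℝ) / q| ≤ 1 := by
  have h1 : cnt R q c Ω ∅ = Nat.count (fun t => t ≡ c [MOD q]) R := by
    rw [Nat.count_eq_card_filter_range]
    unfold cnt
    congr 1
    apply Finset.filter_congr
    intro t _
    simp [Nat.ModEq, Nat.mod_eq_of_lt hc]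
  have h2 := Nat.count_modEq_card_eq_ceil R hq c
  rw [← h1, Nat.mod_eq_of_lt hc] at h2
  have hq' : (0:ℚ) < q := by exact_mod_cast hq
  have h3 : ((R:ℚ) - c) / q ≤ (cnt R q c Ω ∅ : ℚ) := by
    have : ((cnt R q c Ω ∅ : ℤ) : ℚ) = (⌈((R:ℚ) - (c:ℚ)) / (q:ℚ)⌉ : ℚ) := by rw [h2]
    have h4 := Int.le_ceil (((R:ℚ) - (c:ℚ)) / (q:ℚ))
    rw [← this] at h4
    exact_mod_cast h4
  have h5 : (cnt R q c Ω ∅ : ℚ) < ((R:ℚ) - c) / q + 1 := by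
    have : ((cnt R q c Ω ∅ : ℤ) : ℚ) = (⌈((R:ℚ) - (c:ℚ)) / (q:ℚ)⌉ : ℚ) := by rw [h2]
    have h4 := Int.ceil_lt_add_one (((R:ℚ) - (c:ℚ)) / (q:ℚ))
    rw [← this] at h4
    exact_mod_cast h4
  have hc' : (c:ℚ) / q < 1 := by
    rw [div_lt_one hq']; exact_mod_cast hc
  have hc0 : (0:ℚ) ≤ (c:ℚ) / q := by positivity
  rw [sub_div] at h3 h5
  have h6 : |(cnt R q c Ω ∅ : ℚ) - (R : ℚ) / q| ≤ 1 := by
    rw [abs_le]; constructor <;> linarith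
  have h7 := (Rat.cast_le (K := ℝ)).2 h6
  rw [Rat.cast_abs] at h7
  push_cast at h7
  exact h7

end SQF
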