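import Pool.Agent.Helper353.SQF.Defs

set_option autoImplicit false

open Finset

namespace SQF



theorem cnt_step (R q c : ℕ) (Ω : ℕ → Finset ℕ) (F : Finset ℕ) (p : ℕ) (hpF : p ∉ F)
    (hq : 0 < q) (hc : c < q) (hp : 0 < p) (hcop : Nat.Coprime q (p ^ 2))
    (hΩ : ∀ w ∈ Ω p, w < p ^ 2) :
    ∃ f : ℕ → ℕ, (∀ w ∈ Ω p, f w < q * p ^ 2) ∧
      cnt R q c Ω (insert p F) = ∑ w ∈ Ω p, cnt R (q * p ^ 2) (f w) Ω F := by
  have hp2 : 0 < p ^ 2 := pow_pos hp 2
  refine ⟨fun w => (Nat.chineseRemainder hcop c w : ℕ),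
    fun w _ => Nat.chineseRemainder_lt_mul hcop c w hq.ne' hp2.ne', ?_⟩
  have key : ∀ w, w < p ^ 2 → ∀ t : ℕ, (t % q = c ∧ t % p ^ 2 = w) ↔
      t % (q * p ^ 2) = (Nat.chineseRemainder hcop c w : ℕ) := by
    intro w hw t
    have hlt := Nat.chineseRemainder_lt_mul hcop c w hq.ne' hp2.ne'
    have h1 := (Nat.chineseRemainder hcop c w).2.1
    have h2 := (Nat.chineseRemainder hcop c w).2.2
    generalize (Nat.chineseRemainder hcop c w : ℕ) = r at hlt h1 h2
    constructor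
    · rintro ⟨ha, hb⟩
      have e1 : t ≡ r [MOD q] := by
        show t % q = r % q
        rw [ha]
        have : r % q = c % q := h1
        rw [this, Nat.mod_eq_of_lt hc]
      have e2 : t ≡ r [MOD p ^ 2] := by
        show t % p ^ 2 = r % p ^ 2
        rw [hb]
        have : r % p ^ 2 = w % p ^ 2 := h2
        rw [this, Nat.mod_eq_of_lt hw]
      have e3 : t ≡ r [MOD q * p ^ 2] := (Nat.modEq_and_modEq_iff_modEq_mul hcop).1 ⟨e1, e2⟩
      have e4 : t % (q * p ^ 2) = r % (q * p ^ 2) := e3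
      rw [e4, Nat.mod_eq_of_lt hlt]
    · intro h
      have e3 : t ≡ r [MOD q * p ^ 2] := by
        show t % (q * p ^ 2) = r % (q * p ^ 2)
        rw [h, Nat.mod_eq_of_lt hlt]
      obtain ⟨e1, e2⟩ := (Nat.modEq_and_modEq_iff_modEq_mul hcop).2 e3
      have f1 : t % q = c % q := e1.trans h1
      have f2 : t % p ^ 2 = w % p ^ 2 := e2.trans h2
      rw [Nat.mod_eq_of_lt hc] at f1
      rw [Nat.mod_eq_of_lt hw] at f2
      exact ⟨f1, f2⟩
  unfold cnt
  rw [Finset.card_eq_sum_card_fiberwise (f := fun t => t % p ^ 2) (t := Ω p)]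
  · refine Finset.sum_congr rfl (fun w hw => ?_)
    congr 1
    ext t
    have hk := key w (hΩ w hw) t
    simp only [Finset.mem_filter, Finset.mem_range, Finset.mem_insert, forall_eq_or_imp]
    constructor
    · rintro ⟨⟨h1, h2, h3, h4⟩, h5⟩
      exact ⟨h1, hk.1 ⟨h2, h5⟩, h4⟩
    · rintro ⟨h1, h2, h4⟩
      obtain ⟨h6, h7⟩ := hk.2 h2
      exact ⟨⟨h1, h6, by rw [h7]; exact hw, h4⟩, h7⟩
  · intro t ht
    have ht' := Finset.mem_coe.1 ht
    rw [Finset.mem_filter] at ht'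
    exact ht'.2.2 p (Finset.mem_insert_self _ _)

end SQF
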