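import Pool.Agent.Helper353.SQF.Defs
import Pool.Agent.Helper353.SQF.P_cnt_base
import Pool.Agent.Helper353.SQF.P_cnt_step

set_option autoImplicit false

open Finset

namespace SQF



theorem cnt_crt (Ω : ℕ → Finset ℕ) (hΩ : ∀ p, ∀ w ∈ Ω p, w < p ^ 2) (R : ℕ) (F : Finset ℕ)
    (hF : ∀ p ∈ F, p.Prime) (q c : ℕ) (hq : 0 < q) (hc : c < q)
    (hcop : ∀ p ∈ F, Nat.Coprime q p) :
    |(cnt R q c Ω F : ℝ) - (R : ℝ) / q * ∏ p ∈ F, den Ω p| ≤ ∏ p ∈ F, ((Ω p).card : ℝ) := by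
  induction F using Finset.induction_on generalizing q c with
  | empty =>
    simp only [Finset.prod_empty, mul_one]
    exact cnt_base R q c Ω hq hc
  | insert p F hpF ih =>
    have hp : p.Prime := hF p (Finset.mem_insert_self p F)
    have hp0 : 0 < p := hp.pos
    have hpR : (p : ℝ) ≠ 0 := by exact_mod_cast hp0.ne'
    have hqR : (q : ℝ) ≠ 0 := by exact_mod_cast hq.ne'
    obtain ⟨f, hf, hcnt⟩ := cnt_step R q c Ω F p hpF hq hc hp0
      ((hcop p (Finset.mem_insert_self p F)).pow_right 2) (hΩ p)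
    have hih : ∀ w ∈ Ω p, |(cnt R (q * p ^ 2) (f w) Ω F : ℝ) -
        (R : ℝ) / ((q * p ^ 2 : ℕ) : ℝ) * ∏ p ∈ F, den Ω p| ≤ ∏ p ∈ F, ((Ω p).card : ℝ) := by
      intro w hw
      refine ih (fun r hr => hF r (Finset.mem_insert_of_mem hr)) (q * p ^ 2) (f w)
        (Nat.mul_pos hq (pow_pos hp0 2)) (hf w hw) (fun r hr => ?_)
      have hr' : r.Prime := hF r (Finset.mem_insert_of_mem hr)
      have hne : p ≠ r := fun h => hpF (h ▸ hr)
      exact Nat.Coprime.mul_left (hcop r (Finset.mem_insert_of_mem hr))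
        (((Nat.coprime_primes hp hr').2 hne).pow_left 2)
    rw [hcnt, Finset.prod_insert hpF, Finset.prod_insert hpF]
    have e1 : (R : ℝ) / q * (den Ω p * ∏ p ∈ F, den Ω p) =
        ∑ w ∈ Ω p, (R : ℝ) / ((q * p ^ 2 : ℕ) : ℝ) * ∏ p ∈ F, den Ω p := by
      rw [Finset.sum_const, nsmul_eq_mul, den]
      push_cast
      field_simp
    rw [e1, Nat.cast_sum, ← Finset.sum_sub_distrib]
    refine (Finset.abs_sum_le_sum_abs _ _).trans ((Finset.sum_le_sum hih).trans (le_of_eq ?_))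
    rw [Finset.sum_const, nsmul_eq_mul]

end SQF
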