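import Pool.Agent.Helper353.SQF.Defs
import Pool.Agent.Helper353.SQF.P_cnt_crt

set_option autoImplicit false

open Finset

namespace SQF



theorem large (Ω : ℕ → Finset ℕ) (hΩ : ∀ p, ∀ w ∈ Ω p, w < p ^ 2) (R W q : ℕ) (hq : q.Prime)
    (hWq : (Ω q).card ≤ W) :
    (((range R).filter (fun t => t % q ^ 2 ∈ Ω q)).card : ℝ)
      ≤ (W : ℝ) * ((R : ℝ) / (q : ℝ) ^ 2 + 1) := by
  have h1 := cnt_crt Ω hΩ R {q} (by intro p hp; rw [Finset.mem_singleton.mp hp]; exact hq) 1 0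
    one_pos one_pos (fun p _ => Nat.coprime_one_left p)
  have h2 : cnt R 1 0 Ω {q} = ((range R).filter (fun t => t % q ^ 2 ∈ Ω q)).card := by
    unfold cnt
    congr 1
    ext t
    simp [Nat.mod_one]
  rw [h2, Finset.prod_singleton, Finset.prod_singleton] at h1
  have h3 := (abs_le.mp h1).2
  have h4 : ((Ω q).card : ℝ) ≤ W := by exact_mod_cast hWq
  have h5 : (R : ℝ) / ((1 : ℕ) : ℝ) * den Ω q = ((Ω q).card : ℝ) * ((R : ℝ) / (q : ℝ) ^ 2) := by
    unfold den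
    push_cast
    ring
  rw [h5] at h3
  have h6 : ((Ω q).card : ℝ) * ((R : ℝ) / (q : ℝ) ^ 2) ≤ (W : ℝ) * ((R : ℝ) / (q : ℝ) ^ 2) :=
    mul_le_mul_of_nonneg_right h4 (by positivity)
  linarith

end SQF
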