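import Pool.Agent.Helper353.SQF.Defs
import Pool.Agent.Helper353.SQF.P_inv_sq
import Pool.Agent.Helper353.SQF.P_large

set_option autoImplicit false

open Finset

namespace SQF



theorem large_sum (Ω : ℕ → Finset ℕ) (hΩ : ∀ p, ∀ w ∈ Ω p, w < p ^ 2) (h : ℕ) (hh : 1 ≤ h)
    (hW : ∀ p, p.Prime → 2 * h < p → (Ω p).card ≤ h ^ 2) (R V : ℕ) :
    ∑ q ∈ pr (8 * h ^ 2 * 2 ^ h) V,
        (((range R).filter (fun t => t % q ^ 2 ∈ Ω q)).card : ℝ)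
      ≤ (R : ℝ) / (8 * 2 ^ h) + (h : ℝ) ^ 2 * V := by
  have h2h : 1 ≤ 2 ^ h := Nat.one_le_two_pow
  have hbig : 2 * h ≤ 8 * h ^ 2 * 2 ^ h := by
    calc 2 * h ≤ 8 * h ^ 2 * 1 := by nlinarith
      _ ≤ 8 * h ^ 2 * 2 ^ h := Nat.mul_le_mul_left _ h2h
  have h1 : ∀ q ∈ pr (8 * h ^ 2 * 2 ^ h) V,
      (((range R).filter (fun t => t % q ^ 2 ∈ Ω q)).card : ℝ) ≤
        (h : ℝ) ^ 2 * R * (1 / (q : ℝ) ^ 2) + (h : ℝ) ^ 2 := by
    intro q hq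
    simp only [pr, Finset.mem_filter, Finset.mem_Ioc] at hq
    have h3 := large Ω hΩ R (h ^ 2) q hq.2 (hW q hq.2 (lt_of_le_of_lt hbig hq.1.1))
    refine h3.trans (le_of_eq ?_)
    push_cast
    ring
  refine (Finset.sum_le_sum h1).trans ?_
  rw [Finset.sum_add_distrib, ← Finset.mul_sum, Finset.sum_const, nsmul_eq_mul]
  have h4 := inv_sq (8 * h ^ 2 * 2 ^ h) V (by
    have : 1 ≤ 2 * h := by omega
    exact this.trans hbig)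
  have hc : (((pr (8 * h ^ 2 * 2 ^ h) V).card : ℕ) : ℝ) ≤ V := by
    have : (pr (8 * h ^ 2 * 2 ^ h) V).card ≤ V := by
      unfold pr
      refine (Finset.card_filter_le _ _).trans ?_
      rw [Nat.card_Ioc]
      omega
    exact_mod_cast this
  have hh0 : (0:ℝ) < h := by exact_mod_cast hh
  have h5 : (h : ℝ) ^ 2 * R * ∑ p ∈ pr (8 * h ^ 2 * 2 ^ h) V, 1 / (p : ℝ) ^ 2 ≤
      (h : ℝ) ^ 2 * R * (1 / ((8 * h ^ 2 * 2 ^ h : ℕ) : ℝ)) :=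
    mul_le_mul_of_nonneg_left h4 (by positivity)
  have h6 : (h : ℝ) ^ 2 * R * (1 / ((8 * h ^ 2 * 2 ^ h : ℕ) : ℝ)) = (R : ℝ) / (8 * 2 ^ h) := by
    push_cast
    field_simp
  have h7 : ((pr (8 * h ^ 2 * 2 ^ h) V).card : ℝ) * (h : ℝ) ^ 2 ≤ V * (h : ℝ) ^ 2 :=
    mul_le_mul_of_nonneg_right hc (by positivity)
  linarith

end SQF
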