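import Pool.Agent.Helper353.SQF.Defs
import Pool.Agent.Helper353.SQF.P_ek_insert

set_option autoImplicit false

open Finset

namespace SQF



theorem ek_le_aux (s x : ℝ) (hs : 0 ≤ s) (hx : 0 ≤ x) (k : ℕ) :
    s ^ (k + 1) + (k + 1) * x * s ^ k ≤ (s + x) ^ (k + 1) := by
  induction k with
  | zero => simp
  | succ k ih =>
    have h1 : (s + x) * (s ^ (k + 1) + (k + 1) * x * s ^ k) ≤ (s + x) * (s + x) ^ (k + 1) :=
      mul_le_mul_of_nonneg_left ih (by linarith)
    have h2 : 0 ≤ ((k : ℝ) + 1) * x ^ 2 * s ^ k := by positivity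
    have e1 : (s + x) * (s ^ (k + 1) + (k + 1) * x * s ^ k)
        = s ^ (k + 1 + 1) + ((k : ℝ) + 1 + 1) * x * s ^ (k + 1) + (k + 1) * x ^ 2 * s ^ k := by
      ring
    have e2 : (s + x) * (s + x) ^ (k + 1) = (s + x) ^ (k + 1 + 1) := by ring
    push_cast
    rw [e1, e2] at h1
    linarith

theorem ek_zero (x : ℕ → ℝ) (P : Finset ℕ) : ek x P 0 = 1 := by
  unfold ek
  simp

theorem ek_le (x : ℕ → ℝ) (P : Finset ℕ) (k : ℕ) (hx : ∀ p ∈ P, 0 ≤ x p) :
    ek x P k ≤ (∑ p ∈ P, x p) ^ k / (k.factorial : ℝ) := by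
  induction P using Finset.induction_on generalizing k with
  | empty =>
    cases k with
    | zero => rw [ek_zero]; simp
    | succ k =>
      unfold ek
      rw [Finset.powersetCard_eq_empty.mpr (by simp)]
      simp
  | insert a P ha ih =>
    have hxP : ∀ p ∈ P, 0 ≤ x p := fun p hp => hx p (Finset.mem_insert_of_mem hp)
    have hxa : 0 ≤ x a := hx a (Finset.mem_insert_self _ _)
    cases k with
    | zero => rw [ek_zero]; simp
    | succ k =>
      rw [ek_insert x P a ha k, Finset.sum_insert ha]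
      have h1 := ih (k + 1) hxP
      have h2 := ih k hxP
      obtain ⟨s, hs⟩ : ∃ s, s = ∑ p ∈ P, x p := ⟨_, rfl⟩
      rw [← hs] at h1 h2 ⊢
      have hs0 : 0 ≤ s := by rw [hs]; exact Finset.sum_nonneg hxP
      have h3 := ek_le_aux s (x a) hs0 hxa k
      have hf : (0 : ℝ) < (k.factorial : ℝ) := by exact_mod_cast k.factorial_pos
      have hf1 : ((k + 1).factorial : ℝ) = (k + 1) * (k.factorial : ℝ) := by
        rw [Nat.factorial_succ]; push_cast; ring
      have h4 : x a * ek x P k ≤ x a * (s ^ k / (k.factorial : ℝ)) :=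
        mul_le_mul_of_nonneg_left h2 hxa
      have hk : (0 : ℝ) < (k : ℝ) + 1 := by positivity
      have h5 : x a * (s ^ k / (k.factorial : ℝ)) = ((k + 1) * x a * s ^ k) / ((k + 1).factorial : ℝ) := by
        rw [hf1]; field_simp
      have h6 : (s ^ (k + 1) + (k + 1) * x a * s ^ k) / ((k + 1).factorial : ℝ)
          ≤ (s + x a) ^ (k + 1) / ((k + 1).factorial : ℝ) :=
        div_le_div_of_nonneg_right h3 (by positivity)
      rw [add_comm (x a) s]
      rw [add_div] at h6
      linarith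

end SQF
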