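import Pool.Agent.Helper353.SQF.Defs

set_option autoImplicit false

open Finset

namespace SQF



theorem err_sum (N W Z m : ℕ) (hNW : N * W ≤ Z) (hZ : 2 ≤ Z) :
    ∑ k ∈ range (m + 1), (N.choose k : ℝ) * (W : ℝ) ^ k ≤ 2 * (Z : ℝ) ^ m := by
  have hZ' : (2 : ℝ) ≤ Z := by exact_mod_cast hZ
  have hterm : ∀ k, (N.choose k : ℝ) * (W : ℝ) ^ k ≤ (Z : ℝ) ^ k := by
    intro k
    have h1 : (N.choose k : ℝ) ≤ (N : ℝ) ^ k := by exact_mod_cast Nat.choose_le_pow N k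
    calc (N.choose k : ℝ) * (W : ℝ) ^ k ≤ (N : ℝ) ^ k * (W : ℝ) ^ k :=
          mul_le_mul_of_nonneg_right h1 (by positivity)
      _ = ((N * W : ℕ) : ℝ) ^ k := by rw [← mul_pow, Nat.cast_mul]
      _ ≤ (Z : ℝ) ^ k := pow_le_pow_left₀ (by positivity) (by exact_mod_cast hNW) k
  induction m with
  | zero => simp
  | succ m ih =>
    rw [Finset.sum_range_succ]
    have h2 := hterm (m + 1)
    have h3 : 2 * (Z : ℝ) ^ m ≤ (Z : ℝ) ^ (m + 1) := by
      rw [pow_succ, mul_comm]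
      exact mul_le_mul_of_nonneg_left hZ' (by positivity)
    linarith

end SQF
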