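import Pool.Agent.Helper353.SQF.Defs
import Pool.Agent.Helper353.SQF.P_cnt_crt

set_option autoImplicit false

open Finset

namespace SQF



theorem layer (Ω : ℕ → Finset ℕ) (hΩ : ∀ p, ∀ w ∈ Ω p, w < p ^ 2) (R : ℕ) (P : Finset ℕ)
    (hP : ∀ p ∈ P, p.Prime) (q c : ℕ) (hq : 0 < q) (hc : c < q)
    (hcop : ∀ p ∈ P, Nat.Coprime q p) (W : ℕ) (hW : ∀ p ∈ P, (Ω p).card ≤ W) (k : ℕ) :
    |(∑ F ∈ P.powersetCard k, (cnt R q c Ω F : ℝ)) - (R : ℝ) / q * ek (den Ω) P k|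
      ≤ (P.card.choose k : ℝ) * (W : ℝ) ^ k := by
  have h1 : (∑ F ∈ P.powersetCard k, (cnt R q c Ω F : ℝ)) - (R : ℝ) / q * ek (den Ω) P k
      = ∑ F ∈ P.powersetCard k, ((cnt R q c Ω F : ℝ) - (R : ℝ) / q * ∏ p ∈ F, den Ω p) := by
    unfold ek
    rw [Finset.sum_sub_distrib, Finset.mul_sum]
  rw [h1]
  calc |∑ F ∈ P.powersetCard k, ((cnt R q c Ω F : ℝ) - (R : ℝ) / q * ∏ p ∈ F, den Ω p)|
      ≤ ∑ F ∈ P.powersetCard k, |(cnt R q c Ω F : ℝ) - (R : ℝ) / q * ∏ p ∈ F, den Ω p| :=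
        Finset.abs_sum_le_sum_abs _ _
    _ ≤ ∑ F ∈ P.powersetCard k, (W : ℝ) ^ k := by
        apply Finset.sum_le_sum
        intro F hF
        rw [Finset.mem_powersetCard] at hF
        have h2 := cnt_crt Ω hΩ R F (fun p hp => hP p (hF.1 hp)) q c hq hc
          (fun p hp => hcop p (hF.1 hp))
        refine h2.trans ?_
        calc ∏ p ∈ F, ((Ω p).card : ℝ) ≤ ∏ _p ∈ F, (W : ℝ) := by
              apply Finset.prod_le_prod
              · intro p _
                positivity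
              · intro p hp
                exact_mod_cast hW p (hF.1 hp)
          _ = (W : ℝ) ^ k := by
              rw [Finset.prod_const, hF.2]
    _ = (P.card.choose k : ℝ) * (W : ℝ) ^ k := by
        rw [Finset.sum_const, Finset.card_powersetCard, nsmul_eq_mul]

end SQF
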