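import Pool.Agent.Helper353.SQF.Defs

set_option autoImplicit false

open Finset

namespace SQF



theorem cnt_sum (R q c : ℕ) (Ω : ℕ → Finset ℕ) (P : Finset ℕ) (k : ℕ) :
    ∑ t ∈ (range R).filter (fun t => t % q = c), ek (ind Ω t) P k =
      ∑ F ∈ P.powersetCard k, (cnt R q c Ω F : ℝ) := by
  unfold ek
  rw [Finset.sum_comm]
  refine Finset.sum_congr rfl (fun F _ => ?_)
  have h1 : ∀ t : ℕ, ∏ p ∈ F, ind Ω t p = if (∀ p ∈ F, t % p ^ 2 ∈ Ω p) then (1 : ℝ) else 0 := by
    intro t
    split_ifs with h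
    · refine Finset.prod_eq_one (fun p hp => ?_)
      unfold ind
      rw [if_pos (h p hp)]
    · push Not at h
      obtain ⟨p, hp, hpn⟩ := h
      refine Finset.prod_eq_zero hp ?_
      unfold ind
      rw [if_neg hpn]
  rw [Finset.sum_congr rfl (fun t _ => h1 t), Finset.sum_boole, Finset.filter_filter]
  rfl

end SQF
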