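import Pool.Agent.Helper353.SQF.Defs

set_option autoImplicit false

open Finset

namespace SQF



theorem srv_eq (R q c : ℕ) (Ω : ℕ → Finset ℕ) (P : Finset ℕ) :
    (srv R q c Ω P : ℝ) =
      ∑ t ∈ (range R).filter (fun t => t % q = c), ∏ p ∈ P, (1 - ind Ω t p) := by
  have h1 : ∀ t : ℕ, ∏ p ∈ P, (1 - ind Ω t p) = if (∀ p ∈ P, t % p ^ 2 ∉ Ω p) then (1 : ℝ) else 0 := by
    intro t
    by_cases h : ∀ p ∈ P, t % p ^ 2 ∉ Ω p
    · rw [if_pos h]
      refine Finset.prod_eq_one fun p hp => ?_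
      unfold ind
      rw [if_neg (h p hp), sub_zero]
    · rw [if_neg h]
      push Not at h
      obtain ⟨p, hp, hpm⟩ := h
      refine Finset.prod_eq_zero hp ?_
      unfold ind
      rw [if_pos hpm, sub_self]
  have h2 : ∑ t ∈ (range R).filter (fun t => t % q = c), ∏ p ∈ P, (1 - ind Ω t p) =
      ∑ t ∈ (range R).filter (fun t => t % q = c),
        if (∀ p ∈ P, t % p ^ 2 ∉ Ω p) then (1 : ℝ) else 0 :=
    Finset.sum_congr rfl fun t _ => h1 t
  rw [h2, Finset.sum_boole, Finset.filter_filter]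
  rfl

end SQF
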