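import Pool.Agent.Helper353.SQF.Defs
import Pool.Agent.Helper353.SQF.P_bonf
import Pool.Agent.Helper353.SQF.P_srv_eq
import Pool.Agent.Helper353.SQF.P_cnt_sum

set_option autoImplicit false

open Finset

namespace SQF



theorem srv_bonf (R q c : ℕ) (Ω : ℕ → Finset ℕ) (P : Finset ℕ) (r : ℕ) :
    |(srv R q c Ω P : ℝ) -
      ∑ k ∈ range (r + 1), (-1 : ℝ) ^ k * ∑ F ∈ P.powersetCard k, (cnt R q c Ω F : ℝ)|
      ≤ ∑ F ∈ P.powersetCard (r + 1), (cnt R q c Ω F : ℝ) := by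
  have h1 : ∑ k ∈ range (r + 1), (-1 : ℝ) ^ k * ∑ F ∈ P.powersetCard k, (cnt R q c Ω F : ℝ)
      = ∑ t ∈ (range R).filter (fun t => t % q = c),
          ∑ k ∈ range (r + 1), (-1 : ℝ) ^ k * ek (ind Ω t) P k := by
    rw [Finset.sum_comm]
    apply Finset.sum_congr rfl
    intro k _
    rw [← cnt_sum, Finset.mul_sum]
  rw [h1, srv_eq, ← cnt_sum, ← Finset.sum_sub_distrib]
  refine (Finset.abs_sum_le_sum_abs _ _).trans ?_
  apply Finset.sum_le_sum
  intro t _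
  apply bonf
  intro p _
  unfold ind
  split_ifs <;> norm_num

end SQF
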