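import Pool.Agent.Helper353.SQF.Defs
import Pool.Agent.Helper353.SQF.P_bonf
import Pool.Agent.Helper353.SQF.P_srv_bonf
import Pool.Agent.Helper353.SQF.P_layer

set_option autoImplicit false

open Finset

namespace SQF



theorem sieve (Ω : ℕ → Finset ℕ) (hΩ : ∀ p, ∀ w ∈ Ω p, w < p ^ 2) (R : ℕ) (P : Finset ℕ)
    (hP : ∀ p ∈ P, p.Prime) (q c : ℕ) (hq : 0 < q) (hc : c < q)
    (hcop : ∀ p ∈ P, Nat.Coprime q p) (W : ℕ) (hW : ∀ p ∈ P, (Ω p).card ≤ W)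
    (hd : ∀ p ∈ P, den Ω p ≤ 1) (r : ℕ) :
    |(srv R q c Ω P : ℝ) - (R : ℝ) / q * ∏ p ∈ P, (1 - den Ω p)|
      ≤ 2 * ((R : ℝ) / q) * ek (den Ω) P (r + 1)
        + ∑ k ∈ range (r + 2), (P.card.choose k : ℝ) * (W : ℝ) ^ k := by
  have hx : ∀ p ∈ P, 0 ≤ den Ω p ∧ den Ω p ≤ 1 := fun p hp =>
    ⟨by unfold den; positivity, hd p hp⟩
  have hL : (0:ℝ) ≤ (R : ℝ) / q := by positivity
  have h1 := srv_bonf R q c Ω P r
  have h2 := bonf (den Ω) P r hx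
  have h3 := fun k => layer Ω hΩ R P hP q c hq hc hcop W hW k
  set C : ℕ → ℝ := fun k => ∑ F ∈ P.powersetCard k, (cnt R q c Ω F : ℝ) with hC
  set L : ℝ := (R : ℝ) / q with hLd
  have h4 : |∑ k ∈ range (r + 1), (-1 : ℝ) ^ k * C k - L * ∑ k ∈ range (r + 1), (-1 : ℝ) ^ k * ek (den Ω) P k|
      ≤ ∑ k ∈ range (r + 1), (P.card.choose k : ℝ) * (W : ℝ) ^ k := by
    rw [mul_sum, ← sum_sub_distrib]
    refine (abs_sum_le_sum_abs _ _).trans (sum_le_sum fun k _ => ?_)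
    have e : (-1 : ℝ) ^ k * C k - L * ((-1 : ℝ) ^ k * ek (den Ω) P k) =
        (-1 : ℝ) ^ k * (C k - L * ek (den Ω) P k) := by ring
    rw [e, abs_mul, abs_pow, abs_neg, abs_one, one_pow, one_mul]
    exact h3 k
  have h5 : |L * ∑ k ∈ range (r + 1), (-1 : ℝ) ^ k * ek (den Ω) P k - L * ∏ p ∈ P, (1 - den Ω p)| ≤
      L * ek (den Ω) P (r + 1) := by
    rw [← mul_sub, abs_mul, abs_of_nonneg hL, abs_sub_comm]
    exact mul_le_mul_of_nonneg_left h2 hL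
  have h6 : C (r + 1) ≤ L * ek (den Ω) P (r + 1) + (P.card.choose (r+1) : ℝ) * (W : ℝ) ^ (r+1) := by
    have := (abs_le.mp (h3 (r+1))).2
    linarith
  have h7 : |(srv R q c Ω P : ℝ) - ∑ k ∈ range (r + 1), (-1 : ℝ) ^ k * C k| ≤ C (r + 1) := h1
  have h8 : |(srv R q c Ω P : ℝ) - L * ∏ p ∈ P, (1 - den Ω p)| ≤
      |(srv R q c Ω P : ℝ) - ∑ k ∈ range (r + 1), (-1 : ℝ) ^ k * C k| +
      |∑ k ∈ range (r + 1), (-1 : ℝ) ^ k * C k - L * ∑ k ∈ range (r + 1), (-1 : ℝ) ^ k * ek (den Ω) P k| +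
      |L * ∑ k ∈ range (r + 1), (-1 : ℝ) ^ k * ek (den Ω) P k - L * ∏ p ∈ P, (1 - den Ω p)| :=
    (abs_sub_le _ (L * ∑ k ∈ range (r + 1), (-1 : ℝ) ^ k * ek (den Ω) P k) _).trans
      (add_le_add_left (abs_sub_le _ _ _) _)
  rw [sum_range_succ]
  linarith

end SQF
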