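import Pool.Agent.Helper353.SQF.Defs

set_option autoImplicit false

open Finset

namespace SQF



theorem small_ek (h : ℕ) (hh : 1 ≤ h) (κ : ℝ) (h0 : 0 ≤ κ) (hκ : κ ≤ (h : ℝ) / 2) :
    κ ^ (4 * h) / ((4 * h).factorial : ℝ) ≤ (1 / 2 : ℝ) ^ h / 16 := by
  have e1 : (8 * κ) ^ (4 * h) / ((4 * h).factorial : ℝ) ≤ Real.exp (8 * κ) :=
    Real.pow_div_factorial_le_exp _ (by positivity) _
  have e2 : Real.exp (8 * κ) ≤ Real.exp (4 * h) := Real.exp_le_exp.mpr (by linarith)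
  have e3 : Real.exp (4 * h) = (Real.exp 4) ^ h := by
    rw [← Real.exp_nat_mul]; congr 1; ring
  have e4 : Real.exp 4 ≤ 128 := by
    have h1 := Real.exp_one_lt_d9
    have h2 : Real.exp 4 = (Real.exp 1) ^ 4 := by
      rw [← Real.exp_nat_mul]; norm_num
    rw [h2]
    have h3 : (0:ℝ) ≤ Real.exp 1 := (Real.exp_pos 1).le
    calc (Real.exp 1) ^ 4 ≤ (2.7182818286 : ℝ) ^ 4 := pow_le_pow_left₀ h3 h1.le 4
      _ ≤ 128 := by norm_num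
  have e5 : (Real.exp 4) ^ h ≤ (128 : ℝ) ^ h := pow_le_pow_left₀ (Real.exp_pos 4).le e4 h
  have e6 : (8 * κ) ^ (4 * h) / ((4 * h).factorial : ℝ)
      = 4096 ^ h * (κ ^ (4 * h) / ((4 * h).factorial : ℝ)) := by
    rw [mul_pow]
    have : (8 : ℝ) ^ (4 * h) = 4096 ^ h := by rw [pow_mul]; norm_num
    rw [this]; ring
  have e7 : 4096 ^ h * (κ ^ (4 * h) / ((4 * h).factorial : ℝ)) ≤ (128 : ℝ) ^ h := by
    rw [← e6]; exact e1.trans (e2.trans (e3.le.trans e5))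
  have e8 : (128 : ℝ) ^ h = 4096 ^ h * ((1 / 32 : ℝ) ^ h) := by
    rw [← mul_pow]; norm_num
  have e9 : κ ^ (4 * h) / ((4 * h).factorial : ℝ) ≤ (1 / 32 : ℝ) ^ h := by
    rw [e8] at e7
    exact le_of_mul_le_mul_left e7 (by positivity)
  have e10 : (1 / 32 : ℝ) ^ h = (1 / 2 : ℝ) ^ h * (1 / 16 : ℝ) ^ h := by
    rw [← mul_pow]; norm_num
  have e11 : (1 / 16 : ℝ) ^ h ≤ 1 / 16 := by
    calc (1 / 16 : ℝ) ^ h ≤ (1 / 16 : ℝ) ^ 1 := pow_le_pow_of_le_one (by norm_num) (by norm_num) hh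
      _ = 1 / 16 := by norm_num
  rw [e10] at e9
  have : (1 / 2 : ℝ) ^ h * (1 / 16 : ℝ) ^ h ≤ (1 / 2 : ℝ) ^ h * (1 / 16) :=
    mul_le_mul_of_nonneg_left e11 (by positivity)
  linarith

end SQF
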