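import Pool.Agent.Helper353.SQF.Defs
import Pool.Agent.Helper353.SQF.P_ek_le
import Pool.Agent.Helper353.SQF.P_sieve
import Pool.Agent.Helper353.SQF.P_err_sum
import Pool.Agent.Helper353.SQF.P_small_ek
import Pool.Agent.Helper353.SQF.P_kappa
import Pool.Agent.Helper353.SQF.P_den_half
import Pool.Agent.Helper353.SQF.P_PI_low

set_option autoImplicit false

open Finset

namespace SQF



theorem sieve2 (Ω : ℕ → Finset ℕ) (hΩ : ∀ p, ∀ w ∈ Ω p, w < p ^ 2) (h : ℕ) (hh : 1 ≤ h)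
    (hW : ∀ p ∈ pr (2 * h) (16 * h ^ 2), (Ω p).card ≤ h ^ 2) (R q c : ℕ) (hq : 0 < q)
    (hc : c < q) (hcop : ∀ p ∈ pr (2 * h) (16 * h ^ 2), Nat.Coprime q p) :
    |(srv R q c Ω (pr (2 * h) (16 * h ^ 2)) : ℝ) - (R : ℝ) / q * PI Ω h|
      ≤ (R : ℝ) / q * PI Ω h / 8 + 2 * (16 * (h : ℝ) ^ 4) ^ (4 * h) := by

  set P := pr (2 * h) (16 * h ^ 2) with hPdef
  have hPp : ∀ p ∈ P, p.Prime := fun p hp => (Finset.mem_filter.1 hp).2
  have hPlo : ∀ p ∈ P, 2 * h < p := fun p hp =>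
    (Finset.mem_Ioc.1 (Finset.mem_filter.1 hp).1).1
  have hden : ∀ p ∈ P, 0 ≤ den Ω p ∧ den Ω p ≤ 1 / 2 := fun p hp =>
    den_half Ω h p hh (hPlo p hp) (hW p hp)
  have hPc : P.card ≤ 16 * h ^ 2 := by
    have h1 : P.card ≤ (Finset.Ioc (2 * h) (16 * h ^ 2)).card := Finset.card_filter_le _ _
    rw [Nat.card_Ioc] at h1
    omega
  have h1 := sieve Ω hΩ R P hPp q c hq hc hcop (h ^ 2) hW
    (fun p hp => by linarith [(hden p hp).2]) (4 * h - 1)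
  have e1 : 4 * h - 1 + 1 = 4 * h := by omega
  have e2 : 4 * h - 1 + 2 = 4 * h + 1 := by omega
  rw [e1, e2] at h1
  have h2 : ∑ k ∈ range (4 * h + 1), (P.card.choose k : ℝ) * ((h ^ 2 : ℕ) : ℝ) ^ k ≤
      2 * ((16 * h ^ 4 : ℕ) : ℝ) ^ (4 * h) := by
    apply err_sum
    · calc P.card * h ^ 2 ≤ 16 * h ^ 2 * h ^ 2 := Nat.mul_le_mul_right _ hPc
        _ = 16 * h ^ 4 := by ring
    · have : 1 ≤ h ^ 4 := Nat.one_le_pow _ _ hh
      omega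
  have hκ0 : 0 ≤ ∑ p ∈ P, den Ω p := Finset.sum_nonneg fun p hp => (hden p hp).1
  have h3 : ek (den Ω) P (4 * h) ≤ PI Ω h / 16 := by
    have a1 := ek_le (den Ω) P (4 * h) (fun p hp => (hden p hp).1)
    have a2 := small_ek h hh (∑ p ∈ P, den Ω p) hκ0 (kappa Ω h hh hW)
    have a3 := PI_low Ω h hh hW
    linarith
  have hRq : 0 ≤ (R : ℝ) / q := by positivity
  have h4 : 2 * ((R : ℝ) / q) * ek (den Ω) P (4 * h) ≤ (R : ℝ) / q * PI Ω h / 8 := by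
    have := mul_le_mul_of_nonneg_left h3 (mul_nonneg (by norm_num : (0 : ℝ) ≤ 2) hRq)
    linarith
  have e3 : ((16 * h ^ 4 : ℕ) : ℝ) = 16 * (h : ℝ) ^ 4 := by push_cast; ring
  rw [e3] at h2
  have h5 : ∏ p ∈ P, (1 - den Ω p) = PI Ω h := rfl
  rw [h5] at h1
  linarith

end SQF
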