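import Pool.Agent.Helper353.SQF.Defs
import Pool.Agent.Helper353.SQF.P_PI_low
import Pool.Agent.Helper353.SQF.P_sieve2

set_option autoImplicit false

open Finset

namespace SQF



theorem mid (Ω : ℕ → Finset ℕ) (hΩ : ∀ p, ∀ w ∈ Ω p, w < p ^ 2) (h : ℕ) (hh : 1 ≤ h)
    (hW : ∀ p ∈ pr (2 * h) (16 * h ^ 2), (Ω p).card ≤ h ^ 2) (R q : ℕ) (hq : q.Prime)
    (hqz : 16 * h ^ 2 < q) (hWq : (Ω q).card ≤ h ^ 2) :
    (((range R).filter (fun t => t % q ^ 2 ∈ Ω q ∧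
        ∀ p ∈ pr (2 * h) (16 * h ^ 2), t % p ^ 2 ∉ Ω p)).card : ℝ)
      ≤ (h : ℝ) ^ 2 * ((R : ℝ) / (q : ℝ) ^ 2 * PI Ω h * (9 / 8)
          + 2 * (16 * (h : ℝ) ^ 4) ^ (4 * h)) := by
  classical
  have hsub : (range R).filter (fun t => t % q ^ 2 ∈ Ω q ∧
        ∀ p ∈ pr (2 * h) (16 * h ^ 2), t % p ^ 2 ∉ Ω p) ⊆
      (Ω q).biUnion (fun w => (range R).filter (fun t => t % q ^ 2 = w ∧
        ∀ p ∈ pr (2 * h) (16 * h ^ 2), t % p ^ 2 ∉ Ω p)) := by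
    intro t ht
    rw [mem_filter] at ht
    rw [mem_biUnion]
    exact ⟨t % q ^ 2, ht.2.1, mem_filter.mpr ⟨ht.1, rfl, ht.2.2⟩⟩
  have h1 : (((range R).filter (fun t => t % q ^ 2 ∈ Ω q ∧
        ∀ p ∈ pr (2 * h) (16 * h ^ 2), t % p ^ 2 ∉ Ω p)).card : ℝ)
      ≤ ∑ w ∈ Ω q, (srv R (q ^ 2) w Ω (pr (2 * h) (16 * h ^ 2)) : ℝ) := by
    have := (card_le_card hsub).trans card_biUnion_le
    exact_mod_cast this
  have hPI : 0 ≤ PI Ω h := le_trans (by positivity) (PI_low Ω h hh hW)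
  have hX : 0 ≤ (R : ℝ) / (q : ℝ) ^ 2 * PI Ω h * (9 / 8)
          + 2 * (16 * (h : ℝ) ^ 4) ^ (4 * h) := by positivity
  have h2 : ∀ w ∈ Ω q, (srv R (q ^ 2) w Ω (pr (2 * h) (16 * h ^ 2)) : ℝ) ≤
      (R : ℝ) / (q : ℝ) ^ 2 * PI Ω h * (9 / 8) + 2 * (16 * (h : ℝ) ^ 4) ^ (4 * h) := by
    intro w hw
    have h3 := sieve2 Ω hΩ h hh hW R (q ^ 2) w (pow_pos hq.pos 2) (hΩ q w hw) (by
      intro p hp
      have hp' := mem_filter.mp hp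
      have hp2 := mem_Ioc.mp hp'.1
      apply Nat.Coprime.pow_left
      rw [Nat.coprime_primes hq hp'.2]
      omega)
    have h4 := (abs_le.mp h3).2
    push_cast at h4
    linarith
  refine h1.trans ((sum_le_sum h2).trans ?_)
  rw [sum_const, nsmul_eq_mul]
  apply mul_le_mul_of_nonneg_right _ hX
  exact_mod_cast hWq

end SQF
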