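import Pool.Agent.Helper353.SQF.Defs
import Pool.Agent.Helper353.SQF.P_inv_sq
import Pool.Agent.Helper353.SQF.P_PI_low
import Pool.Agent.Helper353.SQF.P_mid

set_option autoImplicit false

open Finset

namespace SQF



theorem mid_sum (Ω : ℕ → Finset ℕ) (hΩ : ∀ p, ∀ w ∈ Ω p, w < p ^ 2) (h : ℕ) (hh : 1 ≤ h)
    (hW : ∀ p, p.Prime → 2 * h < p → (Ω p).card ≤ h ^ 2) (R : ℕ) :
    ∑ q ∈ pr (16 * h ^ 2) (8 * h ^ 2 * 2 ^ h), (((range R).filter (fun t => t % q ^ 2 ∈ Ω q ∧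
        ∀ p ∈ pr (2 * h) (16 * h ^ 2), t % p ^ 2 ∉ Ω p)).card : ℝ)
      ≤ 9 / 128 * (R : ℝ) * PI Ω h
        + 16 * (h : ℝ) ^ 4 * 2 ^ h * (16 * (h : ℝ) ^ 4) ^ (4 * h) := by
  have hh' : (1 : ℝ) ≤ (h : ℝ) := by exact_mod_cast hh
  have hhsq : h ≤ h ^ 2 := by nlinarith
  have hW' : ∀ p ∈ pr (2 * h) (16 * h ^ 2), (Ω p).card ≤ h ^ 2 := by
    intro p hp
    unfold pr at hp
    rw [Finset.mem_filter, Finset.mem_Ioc] at hp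
    exact hW p hp.2 hp.1.1
  have hPI : 0 ≤ PI Ω h := le_trans (by positivity) (PI_low Ω h hh hW')
  set X : ℝ := (16 * (h : ℝ) ^ 4) ^ (4 * h) with hX
  have hX0 : 0 ≤ X := by rw [hX]; positivity
  have h1 : ∀ q ∈ pr (16 * h ^ 2) (8 * h ^ 2 * 2 ^ h),
      (((range R).filter (fun t => t % q ^ 2 ∈ Ω q ∧
        ∀ p ∈ pr (2 * h) (16 * h ^ 2), t % p ^ 2 ∉ Ω p)).card : ℝ) ≤
      ((h : ℝ) ^ 2 * R * PI Ω h * (9 / 8)) * (1 / (q : ℝ) ^ 2) + (h : ℝ) ^ 2 * (2 * X) := by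
    intro q hq
    unfold pr at hq
    rw [Finset.mem_filter, Finset.mem_Ioc] at hq
    refine (mid Ω hΩ h hh hW' R q hq.2 hq.1.1 (hW q hq.2 (by nlinarith [hq.1.1]))).trans (le_of_eq ?_)
    rw [hX]
    ring
  refine (Finset.sum_le_sum h1).trans ?_
  rw [Finset.sum_add_distrib, ← Finset.mul_sum, Finset.sum_const, nsmul_eq_mul]
  have h2 := inv_sq (16 * h ^ 2) (8 * h ^ 2 * 2 ^ h) (by nlinarith)
  have h3 : ((pr (16 * h ^ 2) (8 * h ^ 2 * 2 ^ h)).card : ℝ) ≤ 8 * (h : ℝ) ^ 2 * 2 ^ h := by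
    have h4 : (pr (16 * h ^ 2) (8 * h ^ 2 * 2 ^ h)).card ≤ 8 * h ^ 2 * 2 ^ h := by
      unfold pr
      refine (Finset.card_filter_le _ _).trans ?_
      rw [Nat.card_Ioc]
      exact Nat.sub_le _ _
    exact_mod_cast h4
  have h5 : ((h : ℝ) ^ 2 * R * PI Ω h * (9 / 8)) * ∑ q ∈ pr (16 * h ^ 2) (8 * h ^ 2 * 2 ^ h), 1 / (q : ℝ) ^ 2
      ≤ 9 / 128 * (R : ℝ) * PI Ω h := by
    have h6 : ((h : ℝ) ^ 2 * R * PI Ω h * (9 / 8)) * (1 / ((16 * h ^ 2 : ℕ) : ℝ)) = 9 / 128 * (R : ℝ) * PI Ω h := by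
      push_cast
      have : (h : ℝ) ≠ 0 := by positivity
      field_simp
      ring
    rw [← h6]
    exact mul_le_mul_of_nonneg_left h2 (by positivity)
  have h7 : ((pr (16 * h ^ 2) (8 * h ^ 2 * 2 ^ h)).card : ℝ) * ((h : ℝ) ^ 2 * (2 * X)) ≤
      16 * (h : ℝ) ^ 4 * 2 ^ h * X := by
    calc ((pr (16 * h ^ 2) (8 * h ^ 2 * 2 ^ h)).card : ℝ) * ((h : ℝ) ^ 2 * (2 * X))
        ≤ (8 * (h : ℝ) ^ 2 * 2 ^ h) * ((h : ℝ) ^ 2 * (2 * X)) :=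
          mul_le_mul_of_nonneg_right h3 (by positivity)
      _ = 16 * (h : ℝ) ^ 4 * 2 ^ h * X := by ring
  linarith

end SQF
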