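import Pool.Agent.Helper353.SQF.Defs

set_option autoImplicit false

open Finset

namespace SQF



theorem num_E (h : ℕ) (hh : 1 ≤ h) :
    (2 + 16 * (h : ℝ) ^ 4 * 2 ^ h) * (16 * (h : ℝ) ^ 4) ^ (4 * h)
      ≤ (RR h : ℝ) / (8 * 2 ^ h) := by
  have hT : (0 : ℝ) ≤ (16 * (h : ℝ) ^ 4) ^ (4 * h) := by positivity
  have hcast : (RR h : ℝ) = 256 * (h : ℝ) ^ 6 * 1024 ^ h * (16 * (h : ℝ) ^ 4) ^ (4 * h) := by
    unfold RR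
    push_cast
    ring
  rw [hcast]
  generalize (16 * (h : ℝ) ^ 4) ^ (4 * h) = T at hT ⊢
  have hh' : (1 : ℝ) ≤ (h : ℝ) := by exact_mod_cast hh
  have hx : (1 : ℝ) ≤ 2 ^ h := one_le_pow₀ (by norm_num)
  have h1024 : (1024 : ℝ) ^ h = (2 ^ h) ^ 10 := by
    rw [← pow_mul, mul_comm h 10, pow_mul]
    norm_num
  rw [h1024]
  generalize (2 : ℝ) ^ h = x at hx ⊢
  rw [le_div_iff₀ (by positivity)]
  have h4 : (1 : ℝ) ≤ (h : ℝ) ^ 4 := one_le_pow₀ hh'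
  have h46 : (h : ℝ) ^ 4 ≤ (h : ℝ) ^ 6 := pow_le_pow_right₀ hh' (by norm_num)
  have x2 : x ^ 2 ≤ x ^ 10 := pow_le_pow_right₀ hx (by norm_num)
  have hx0 : (0 : ℝ) ≤ x := by linarith
  have a1 : (2 : ℝ) ≤ 2 * ((h : ℝ) ^ 4 * x) := by nlinarith
  have a2 : (2 + 16 * (h : ℝ) ^ 4 * x) * (8 * x) ≤ 144 * ((h : ℝ) ^ 4 * x ^ 2) := by nlinarith
  have a3 : (h : ℝ) ^ 4 * x ^ 2 ≤ (h : ℝ) ^ 6 * x ^ 10 := by
    apply mul_le_mul h46 x2 (by positivity) (by positivity)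
  have a4 : 0 ≤ (h : ℝ) ^ 6 * x ^ 10 := by positivity
  calc (2 + 16 * (h : ℝ) ^ 4 * x) * T * (8 * x) = ((2 + 16 * (h : ℝ) ^ 4 * x) * (8 * x)) * T := by ring
    _ ≤ (256 * ((h : ℝ) ^ 6 * x ^ 10)) * T := by
        apply mul_le_mul_of_nonneg_right _ hT
        linarith
    _ = 256 * (h : ℝ) ^ 6 * x ^ 10 * T := by ring

end SQF
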