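import Pool.Agent.Helper353.SQF.Defs

set_option autoImplicit false

open Finset

namespace SQF



theorem num_V (h V : ℕ) (hh : 1 ≤ h) (hV : V ^ 2 ≤ (2 * h ^ 2 + 2) * 256 ^ h * RR h) :
    (h : ℝ) ^ 2 * V ≤ (RR h : ℝ) / (8 * 2 ^ h) := by
  have hT : 0 < (16 * h ^ 4) ^ (4 * h) := by positivity
  have e3 : 2 * h ^ 2 + 2 ≤ 4 * h ^ 2 := by nlinarith
  have e2 : (4 : ℕ) ^ h * 256 ^ h = 1024 ^ h := by rw [← mul_pow]; norm_num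
  have e0 : ((2 : ℕ) ^ h) ^ 2 = 4 ^ h := by rw [← pow_mul, mul_comm, pow_mul]; norm_num
  have hR : (256 * h ^ 6 * 1024 ^ h) ≤ RR h := by
    unfold RR
    exact Nat.le_mul_of_pos_right _ hT
  generalize RR h = R at *
  have key : (8 * h ^ 2 * 2 ^ h * V) ^ 2 ≤ R ^ 2 := by
    calc (8 * h ^ 2 * 2 ^ h * V) ^ 2 = 64 * h ^ 4 * ((2 ^ h) ^ 2) * V ^ 2 := by ring
      _ = 64 * h ^ 4 * 4 ^ h * V ^ 2 := by rw [e0]
      _ ≤ 64 * h ^ 4 * 4 ^ h * ((2 * h ^ 2 + 2) * 256 ^ h * R) := Nat.mul_le_mul_left _ hV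
      _ ≤ 64 * h ^ 4 * 4 ^ h * ((4 * h ^ 2) * 256 ^ h * R) := by gcongr
      _ = (256 * h ^ 6 * (4 ^ h * 256 ^ h)) * R := by ring
      _ = (256 * h ^ 6 * 1024 ^ h) * R := by rw [e2]
      _ ≤ R * R := Nat.mul_le_mul_right _ hR
      _ = R ^ 2 := by ring
  have key2 : 8 * h ^ 2 * 2 ^ h * V ≤ R := (Nat.pow_le_pow_iff_left (by norm_num)).mp key
  rw [le_div_iff₀ (by positivity)]
  have key3 : ((8 * h ^ 2 * 2 ^ h * V : ℕ) : ℝ) ≤ (R : ℝ) := by exact_mod_cast key2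
  push_cast at key3
  calc (h : ℝ) ^ 2 * (V : ℝ) * (8 * (2 : ℝ) ^ h) = 8 * (h : ℝ) ^ 2 * 2 ^ h * (V : ℝ) := by ring
    _ ≤ (R : ℝ) := key3

end SQF
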