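import Pool.Agent.Helper353.SQF.Defs

set_option autoImplicit false

open Finset

namespace SQF



theorem union_bd (Ω : ℕ → Finset ℕ) (R h V z : ℕ) :
    srv R 1 0 Ω (pr (2 * h) (16 * h ^ 2)) ≤
      ((range R).filter (fun t => ∀ p ∈ pr (2 * h) V, t % p ^ 2 ∉ Ω p)).card
      + ∑ q ∈ pr (16 * h ^ 2) z, ((range R).filter (fun t => t % q ^ 2 ∈ Ω q ∧
          ∀ p ∈ pr (2 * h) (16 * h ^ 2), t % p ^ 2 ∉ Ω p)).card
      + ∑ q ∈ pr z V, ((range R).filter (fun t => t % q ^ 2 ∈ Ω q)).card := by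
  classical
  have hsub : (Finset.range R).filter
        (fun t => t % 1 = 0 ∧ ∀ p ∈ pr (2 * h) (16 * h ^ 2), t % p ^ 2 ∉ Ω p) ⊆
      ((range R).filter (fun t => ∀ p ∈ pr (2 * h) V, t % p ^ 2 ∉ Ω p)) ∪
      ((pr (16 * h ^ 2) z).biUnion (fun q => (range R).filter (fun t => t % q ^ 2 ∈ Ω q ∧
          ∀ p ∈ pr (2 * h) (16 * h ^ 2), t % p ^ 2 ∉ Ω p))) ∪
      ((pr z V).biUnion (fun q => (range R).filter (fun t => t % q ^ 2 ∈ Ω q))) := by
    intro t ht
    rw [Finset.mem_filter] at ht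
    obtain ⟨htR, -, hts⟩ := ht
    rw [Finset.mem_union, Finset.mem_union]
    by_cases hg : ∀ p ∈ pr (2 * h) V, t % p ^ 2 ∉ Ω p
    · exact Or.inl (Or.inl (Finset.mem_filter.2 ⟨htR, hg⟩))
    · push Not at hg
      obtain ⟨p, hp, hpΩ⟩ := hg
      unfold pr at hp
      rw [Finset.mem_filter, Finset.mem_Ioc] at hp
      have hp16 : 16 * h ^ 2 < p := by
        by_contra hle
        refine hts p ?_ hpΩ
        unfold pr
        rw [Finset.mem_filter, Finset.mem_Ioc]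
        exact ⟨⟨hp.1.1, not_lt.1 hle⟩, hp.2⟩
      by_cases hz : p ≤ z
      · refine Or.inl (Or.inr (Finset.mem_biUnion.2 ⟨p, ?_, Finset.mem_filter.2 ⟨htR, hpΩ, hts⟩⟩))
        unfold pr
        rw [Finset.mem_filter, Finset.mem_Ioc]
        exact ⟨⟨hp16, hz⟩, hp.2⟩
      · refine Or.inr (Finset.mem_biUnion.2 ⟨p, ?_, Finset.mem_filter.2 ⟨htR, hpΩ⟩⟩)
        unfold pr
        rw [Finset.mem_filter, Finset.mem_Ioc]
        exact ⟨⟨not_le.1 hz, hp.1.2⟩, hp.2⟩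
  unfold srv
  refine (Finset.card_le_card hsub).trans ?_
  refine (Finset.card_union_le _ _).trans ?_
  refine Nat.add_le_add ((Finset.card_union_le _ _).trans ?_) Finset.card_biUnion_le
  exact Nat.add_le_add le_rfl Finset.card_biUnion_le

end SQF
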