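import Pool.Agent.Helper353.SQF.Defs
import Pool.Agent.Helper353.SQF.P_PI_low
import Pool.Agent.Helper353.SQF.P_sieve2
import Pool.Agent.Helper353.SQF.P_union_bd
import Pool.Agent.Helper353.SQF.P_mid_sum
import Pool.Agent.Helper353.SQF.P_large_sum
import Pool.Agent.Helper353.SQF.P_num_V
import Pool.Agent.Helper353.SQF.P_num_E

set_option autoImplicit false

open Finset

namespace SQF



theorem good_two (Ω : ℕ → Finset ℕ) (hΩ : ∀ p, ∀ w ∈ Ω p, w < p ^ 2) (h : ℕ) (hh : 1 ≤ h)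
    (hW : ∀ p, p.Prime → 2 * h < p → (Ω p).card ≤ h ^ 2) (V : ℕ)
    (hV : V ^ 2 ≤ (2 * h ^ 2 + 2) * 256 ^ h * RR h) :
    2 ≤ ((range (RR h)).filter (fun t => ∀ p ∈ pr (2 * h) V, t % p ^ 2 ∉ Ω p)).card := by
  have hWpr : ∀ p ∈ pr (2 * h) (16 * h ^ 2), (Ω p).card ≤ h ^ 2 := by
    intro p hp
    unfold pr at hp
    rw [Finset.mem_filter, Finset.mem_Ioc] at hp
    exact hW p hp.2 hp.1.1
  have hPI := PI_low Ω h hh hWpr
  have hs := sieve2 Ω hΩ h hh hWpr (RR h) 1 0 one_pos one_pos (fun p _ => Nat.coprime_one_left p)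
  have hu := union_bd Ω (RR h) h V (8 * h ^ 2 * 2 ^ h)
  have hm := mid_sum Ω hΩ h hh hW (RR h)
  have hl := large_sum Ω hΩ h hh hW (RR h) V
  have hv := num_V h V hh hV
  have he := num_E h hh
  have hu' : (srv (RR h) 1 0 Ω (pr (2 * h) (16 * h ^ 2)) : ℝ) ≤
      (((range (RR h)).filter (fun t => ∀ p ∈ pr (2 * h) V, t % p ^ 2 ∉ Ω p)).card : ℝ)
      + ∑ q ∈ pr (16 * h ^ 2) (8 * h ^ 2 * 2 ^ h),
          (((range (RR h)).filter (fun t => t % q ^ 2 ∈ Ω q ∧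
          ∀ p ∈ pr (2 * h) (16 * h ^ 2), t % p ^ 2 ∉ Ω p)).card : ℝ)
      + ∑ q ∈ pr (8 * h ^ 2 * 2 ^ h) V,
          (((range (RR h)).filter (fun t => t % q ^ 2 ∈ Ω q)).card : ℝ) := by
    exact_mod_cast hu
  have hR : (256 : ℝ) * 2 ^ h ≤ (RR h : ℝ) := by
    have hN : 256 * 2 ^ h ≤ RR h := by
      unfold RR
      have h1 : 1 ≤ h ^ 6 := Nat.one_le_pow _ _ hh
      have h2 : 2 ^ h ≤ 1024 ^ h := Nat.pow_le_pow_left (by norm_num) h
      have h3 : 1 ≤ (16 * h ^ 4) ^ (4 * h) := by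
        apply Nat.one_le_pow
        positivity
      calc 256 * 2 ^ h = 256 * 1 * 2 ^ h * 1 := by ring
        _ ≤ 256 * h ^ 6 * 1024 ^ h * (16 * h ^ 4) ^ (4 * h) := by gcongr
    exact_mod_cast hN
  obtain ⟨R, hRd⟩ : ∃ R : ℝ, R = (RR h : ℝ) := ⟨_, rfl⟩
  rw [← hRd] at hs hm hl hv he hR
  have h2h : (0 : ℝ) < 2 ^ h := by positivity
  have hR0 : 0 ≤ R := by nlinarith
  have hRP : R / 2 ^ h ≤ R * PI Ω h := by
    have h1 := mul_le_mul_of_nonneg_left hPI hR0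
    have h2 : R * (1 / 2 : ℝ) ^ h = R / 2 ^ h := by
      rw [one_div, inv_pow, div_eq_mul_inv]
    rw [h2] at h1
    exact h1
  have hR256 : 256 ≤ R / 2 ^ h := by rw [le_div_iff₀ h2h]; exact hR
  have h8 : R / (8 * 2 ^ h) = (R / 2 ^ h) / 8 := by
    rw [div_div, mul_comm]
  rw [h8] at hl hv he
  simp only [Nat.cast_one, div_one] at hs
  rw [abs_le] at hs
  have hs1 := hs.1
  have hgood : (2 : ℝ) ≤
      (((range (RR h)).filter (fun t => ∀ p ∈ pr (2 * h) V, t % p ^ 2 ∉ Ω p)).card : ℝ) := by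
    obtain ⟨E, hE⟩ : ∃ E : ℝ, E = (16 * (h : ℝ) ^ 4) ^ (4 * h) := ⟨_, rfl⟩
    rw [← hE] at hs1 hm he
    obtain ⟨M, hM⟩ : ∃ M : ℝ, M = 16 * (h : ℝ) ^ 4 * 2 ^ h * E := ⟨_, rfl⟩
    have he' : 2 * E + M ≤ R / 2 ^ h / 8 := by
      rw [hM]
      have : 2 * E + 16 * (h : ℝ) ^ 4 * 2 ^ h * E = (2 + 16 * (h : ℝ) ^ 4 * 2 ^ h) * E := by ring
      rw [this]; exact he
    rw [← hM] at hm
    have hm' : 9 / 128 * R * PI Ω h = 9 / 128 * (R * PI Ω h) := by ring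
    rw [hm'] at hm
    linarith
  exact_mod_cast hgood

end SQF
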