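import Pool.Agent.Helper353.SQF.Defs

set_option autoImplicit false

open Finset

namespace SQF



theorem om_card (D : ℕ) (S : Finset (ℕ × ℕ)) (p : ℕ) (hp : p.Prime) (hp2 : 2 < p)
    (hD : Nat.Coprime p D) (hS : ∀ s ∈ S, s.2 = 1 ∨ s.2 = 2) : (Om D S p).card ≤ S.card := by
  have hsub : Om D S p ⊆ S.biUnion (fun s =>
      (Finset.range (p ^ 2)).filter (fun ρ => p ^ 2 ∣ s.1 + s.2 * D * ρ)) := by
    intro ρ hρ
    rw [Om, Finset.mem_filter] at hρ
    obtain ⟨h1, s, hs, h2⟩ := hρ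
    rw [Finset.mem_biUnion]
    exact ⟨s, hs, Finset.mem_filter.2 ⟨h1, h2⟩⟩
  refine (Finset.card_le_card hsub).trans ?_
  refine (Finset.card_biUnion_le_card_mul S _ 1 ?_).trans (by rw [mul_one])
  intro s hs
  rw [Finset.card_le_one]
  intro ρ hρ ρ' hρ'
  rw [Finset.mem_filter, Finset.mem_range] at hρ hρ'
  have hcop : Nat.gcd (p ^ 2) (s.2 * D) = 1 := by
    apply Nat.Coprime.pow_left
    apply Nat.Coprime.mul_right _ hD
    rcases hS s hs with h | h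
    · rw [h]
      exact Nat.coprime_one_right p
    · rw [h]
      exact (Nat.coprime_primes hp Nat.prime_two).2 (by omega)
  have h1 : s.1 + s.2 * D * ρ ≡ s.1 + s.2 * D * ρ' [MOD p ^ 2] :=
    ((Nat.modEq_zero_iff_dvd).2 hρ.2).trans ((Nat.modEq_zero_iff_dvd).2 hρ'.2).symm
  have h2 : s.2 * D * ρ ≡ s.2 * D * ρ' [MOD p ^ 2] := Nat.ModEq.add_left_cancel' s.1 h1
  have h3 := Nat.ModEq.cancel_left_of_coprime hcop h2
  exact Nat.ModEq.eq_of_lt_of_lt h3 hρ.1 hρ'.1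

end SQF
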