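import Pool.Agent.Helper353.SQF.Defs

set_option autoImplicit false

open Finset

namespace SQF



theorem om_mem (D : ℕ) (S : Finset (ℕ × ℕ)) (p t : ℕ) (hp : 0 < p) :
    t % p ^ 2 ∈ Om D S p ↔ ∃ s ∈ S, p ^ 2 ∣ s.1 + s.2 * D * t := by
  have hpp : 0 < p ^ 2 := pow_pos hp 2
  have key : ∀ s : ℕ × ℕ, (p ^ 2 ∣ s.1 + s.2 * D * (t % p ^ 2)) ↔ p ^ 2 ∣ s.1 + s.2 * D * t := by
    intro s
    have h1 : s.1 + s.2 * D * (t % p ^ 2) ≡ s.1 + s.2 * D * t [MOD p ^ 2] :=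
      Nat.ModEq.add_left _ (Nat.ModEq.mul_left _ (Nat.mod_modEq t (p ^ 2)))
    exact h1.dvd_iff dvd_rfl
  simp only [Om, Finset.mem_filter, Finset.mem_range, Nat.mod_lt t hpp, true_and, key]

end SQF
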