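import Pool.Agent.Helper353.SQF.Defs
import Pool.Agent.Helper353.SQF.P_good_two
import Pool.Agent.Helper353.SQF.P_om_card
import Pool.Agent.Helper353.SQF.P_om_mem

set_option autoImplicit false

open Finset

namespace SQF



theorem sq_ndvd (h p : ℕ) (hp : p.Prime) (h2 : 2 * h < p) : ¬ p ∣ primorial (2 * h) := by
  intro hd
  unfold primorial at hd
  obtain ⟨q, hq, hpq⟩ := (Prime.dvd_finsetProd_iff hp.prime _).1 hd
  rw [Finset.mem_filter, Finset.mem_range] at hq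
  have := Nat.le_of_dvd hq.2.pos hpq
  omega

theorem sq_dvd (h p : ℕ) (hp : p.Prime) (h2 : p ≤ 2 * h) : p ∣ primorial (2 * h) := by
  unfold primorial
  apply Finset.dvd_prod_of_mem (fun q => q)
  rw [Finset.mem_filter, Finset.mem_range]
  exact ⟨by omega, hp⟩

theorem stage (h : ℕ) (hh : 1 ≤ h) (S : Finset (ℕ × ℕ)) (hS : S.card ≤ h ^ 2)
    (hc : ∀ s ∈ S, Squarefree s.1 ∧ s.1 ≤ 2 * h ^ 2 * BB h ∧ (s.2 = 1 ∨ s.2 = 2)) :
    ∃ t, 1 ≤ t ∧ t < RR h ∧
      ∀ s ∈ S, Squarefree (s.1 + s.2 * (primorial (2 * h)) ^ 2 * t) := by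
  have hD : primorial (2 * h) ^ 2 ≤ 256 ^ h := by
    calc primorial (2 * h) ^ 2 ≤ (4 ^ (2 * h)) ^ 2 := Nat.pow_le_pow_left (primorial_le_four_pow _) 2
      _ = 256 ^ h := by
        rw [← pow_mul, mul_comm 2 h, mul_assoc, mul_comm h, pow_mul]
        norm_num
  have hBB : BB h = 256 ^ h * RR h := rfl
  generalize hRdef : RR h = R at *
  generalize hEdef : 256 ^ h = E at *
  obtain ⟨V, hVdef⟩ : ∃ V, V = Nat.sqrt ((2 * h ^ 2 + 2) * E * R) := ⟨_, rfl⟩
  have hV : V ^ 2 ≤ (2 * h ^ 2 + 2) * 256 ^ h * RR h := by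
    rw [hVdef, hRdef, hEdef]
    exact Nat.sqrt_le' _
  have hcard : ∀ p, p.Prime → 2 * h < p → (Om (primorial (2 * h) ^ 2) S p).card ≤ h ^ 2 := by
    intro p hp h2
    refine (om_card _ S p hp (by omega) ?_ (fun s hs => (hc s hs).2.2)).trans hS
    apply Nat.Coprime.pow_right
    exact (Nat.Prime.coprime_iff_not_dvd hp).2 (sq_ndvd h p hp h2)
  have hg := good_two (Om (primorial (2 * h) ^ 2) S)
    (fun p w hw => Finset.mem_range.1 (Finset.mem_filter.1 hw).1) h hh hcard V hV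
  obtain ⟨t, ht, ht0⟩ : ∃ t ∈ ((range (RR h)).filter
      (fun t => ∀ p ∈ pr (2 * h) V, t % p ^ 2 ∉ Om (primorial (2 * h) ^ 2) S p)), t ≠ 0 := by
    obtain ⟨a, ha, b, hb, hab⟩ := Finset.one_lt_card.1 hg
    by_cases h0 : a = 0
    · exact ⟨b, hb, fun hb0 => hab (h0.trans hb0.symm)⟩
    · exact ⟨a, ha, h0⟩
  rw [Finset.mem_filter, Finset.mem_range, hRdef] at ht
  refine ⟨t, by omega, ht.1, ?_⟩
  intro s hs
  obtain ⟨hsq, hle, h12⟩ := hc s hs
  rw [Nat.squarefree_iff_prime_squarefree]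
  intro p hp hdvd
  by_cases hp2 : p ≤ 2 * h
  · have h1 := sq_dvd h p hp hp2
    have h2 : p * p ∣ primorial (2 * h) ^ 2 := by
      rw [sq]
      exact mul_dvd_mul h1 h1
    have h3 : p * p ∣ s.2 * primorial (2 * h) ^ 2 * t :=
      dvd_mul_of_dvd_left (dvd_mul_of_dvd_right h2 _) _
    have h4 : p * p ∣ s.1 := (Nat.dvd_add_left h3).1 hdvd
    exact (Nat.squarefree_iff_prime_squarefree.1 hsq) p hp h4
  · push Not at hp2
    have hpos : 0 < s.1 + s.2 * primorial (2 * h) ^ 2 * t := by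
      have := Nat.pos_of_ne_zero hsq.ne_zero
      omega
    have hle2 : p * p ≤ s.1 + s.2 * primorial (2 * h) ^ 2 * t := Nat.le_of_dvd hpos hdvd
    have hb1 : s.2 * primorial (2 * h) ^ 2 * t ≤ 2 * E * R := by
      have : s.2 ≤ 2 := by rcases h12 with h | h <;> omega
      exact Nat.mul_le_mul (Nat.mul_le_mul this hD) ht.1.le
    have hb2 : s.1 + s.2 * primorial (2 * h) ^ 2 * t ≤ (2 * h ^ 2 + 2) * E * R := by
      calc s.1 + s.2 * primorial (2 * h) ^ 2 * t ≤ 2 * h ^ 2 * BB h + 2 * E * R :=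
            Nat.add_le_add hle hb1
        _ = (2 * h ^ 2 + 2) * E * R := by
            rw [hBB]
            ring
    have hpV : p ≤ V := by
      rw [hVdef]
      exact Nat.le_sqrt.2 (hle2.trans hb2)
    have hmem : p ∈ pr (2 * h) V := by
      unfold pr
      rw [Finset.mem_filter, Finset.mem_Ioc]
      exact ⟨⟨hp2, hpV⟩, hp⟩
    apply ht.2 p hmem
    rw [om_mem _ S p t hp.pos]
    exact ⟨s, hs, by rw [sq]; exact hdvd⟩

end SQF
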