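import Pool.Agent.Helper353.SQF.Defs
import Pool.Agent.Helper353.SQF.P_stage

set_option autoImplicit false

open Finset

namespace SQF



theorem step (n h : ℕ) (a : ℕ → ℕ) (ha : ∀ i ≤ n, ∀ j ≤ n, Squarefree (a i + a j))
    (hm : ∀ i ≤ n, a i ≤ a n) (hh : n + 2 ≤ h ^ 2) (hb : a n ≤ (n + 1) * BB h) :
    ∃ b, a n < b ∧ b ≤ a n + BB h ∧ Squarefree (b + b) ∧ ∀ i ≤ n, Squarefree (a i + b) := by
  have h1 : 1 ≤ h := by
    rcases Nat.eq_zero_or_pos h with h0 | h0
    · subst h0
      simp at hh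
    · exact h0
  let S : Finset (ℕ × ℕ) := (range (n + 1)).image (fun i => (a i + a n, 1)) ∪ {(a n + a n, 2)}
  have hS : S.card ≤ h ^ 2 := by
    refine le_trans (card_union_le _ _) (le_trans ?_ hh)
    have h2 : ((range (n + 1)).image (fun i => (a i + a n, 1))).card ≤ n + 1 := by
      refine le_trans card_image_le ?_
      rw [card_range]
    rw [card_singleton]
    omega
  have hbound : a n + a n ≤ 2 * h ^ 2 * BB h := by
    have h3 : (n + 1) * BB h ≤ h ^ 2 * BB h := Nat.mul_le_mul_right _ (by omega)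
    have h4 : 2 * h ^ 2 * BB h = h ^ 2 * BB h + h ^ 2 * BB h := by ring
    omega
  have hc : ∀ s ∈ S, Squarefree s.1 ∧ s.1 ≤ 2 * h ^ 2 * BB h ∧ (s.2 = 1 ∨ s.2 = 2) := by
    intro s hs
    rcases mem_union.1 hs with hs | hs
    · obtain ⟨i, hi, rfl⟩ := mem_image.1 hs
      have hi' : i ≤ n := by
        have := mem_range.1 hi
        omega
      refine ⟨ha i hi' n le_rfl, ?_, Or.inl rfl⟩
      have := hm i hi'
      show a i + a n ≤ _
      omega
    · rw [mem_singleton] at hs
      subst hs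
      exact ⟨ha n le_rfl n le_rfl, hbound, Or.inr rfl⟩
  obtain ⟨t, ht1, ht2, ht⟩ := stage h h1 S hS hc
  have hD0 : 0 < primorial (2 * h) ^ 2 := Nat.pow_pos (primorial_pos _)
  have hD : primorial (2 * h) ^ 2 ≤ 256 ^ h := by
    have h3 : primorial (2 * h) ≤ 4 ^ (2 * h) := primorial_le_four_pow _
    calc primorial (2 * h) ^ 2 ≤ (4 ^ (2 * h)) ^ 2 := Nat.pow_le_pow_left h3 2
      _ = 256 ^ h := by
        rw [← pow_mul, show 2 * h * 2 = 4 * h by ring, pow_mul]
        norm_num
  have hDt : primorial (2 * h) ^ 2 * t ≤ BB h := Nat.mul_le_mul hD ht2.le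
  have hDt0 : 0 < primorial (2 * h) ^ 2 * t := Nat.mul_pos hD0 (by omega)
  refine ⟨a n + primorial (2 * h) ^ 2 * t, by omega, by omega, ?_, ?_⟩
  · have h3 := ht (a n + a n, 2) (mem_union_right _ (mem_singleton_self _))
    have h4 : a n + primorial (2 * h) ^ 2 * t + (a n + primorial (2 * h) ^ 2 * t)
        = (a n + a n) + 2 * primorial (2 * h) ^ 2 * t := by ring
    rw [h4]
    exact h3
  · intro i hi
    have h3 := ht (a i + a n, 1) (mem_union_left _ (mem_image_of_mem _ (mem_range.2 (by omega))))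
    have h4 : a i + (a n + primorial (2 * h) ^ 2 * t)
        = (a i + a n) + 1 * primorial (2 * h) ^ 2 * t := by ring
    rw [h4]
    exact h3

end SQF
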