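import Pool.Agent.Helper353.SQF.Defs
import Pool.Agent.Helper353.SQF.P_step
import Pool.Agent.Helper353.SQF.P_BB_mono

set_option autoImplicit false

open Finset

namespace SQF



def Inv (n : ℕ) (p : ℕ → ℕ) : Prop :=
  (∀ i ≤ n, ∀ j ≤ n, Squarefree (p i + p j)) ∧ (∀ i j, i < j → j ≤ n → p i < p j) ∧ p 0 = 1 ∧
    (∀ i ≤ n, p i ≤ (i + 1) * BB (Nat.sqrt (i + 2) + 1))

theorem chain_BB_pos (h : ℕ) : 0 < BB (h + 1) := by
  unfold BB RR
  positivity

theorem chain_start : Inv 0 (fun _ => 1) := by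
  refine ⟨?_, ?_, rfl, ?_⟩
  · intro i _ j _
    show Squarefree (1 + 1)
    exact Nat.prime_two.prime.squarefree
  · intro i j h1 h2; omega
  · intro i _
    show 1 ≤ (i + 1) * BB (Nat.sqrt (i + 2) + 1)
    exact Nat.mul_pos (Nat.succ_pos _) (chain_BB_pos _)

theorem chain_step (n : ℕ) (p : ℕ → ℕ) (hp : Inv n p) :
    ∃ p' : ℕ → ℕ, Inv (n + 1) p' ∧ ∀ i ≤ n, p' i = p i := by
  obtain ⟨h1, h2, h3, h4⟩ := hp
  have hm : ∀ i ≤ n, p i ≤ p n := by
    intro i hi
    rcases Nat.lt_or_eq_of_le hi with h | h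
    · exact (h2 i n h le_rfl).le
    · rw [h]
  have hh : n + 2 ≤ (Nat.sqrt (n + 2) + 1) ^ 2 := (Nat.lt_succ_sqrt' (n + 2)).le
  obtain ⟨b, hb1, hb2, hb3, hb4⟩ := step n (Nat.sqrt (n + 2) + 1) p h1 hm hh (h4 n le_rfl)
  have hu : ∀ i, i ≤ n → Function.update p (n + 1) b i = p i := by
    intro i hi
    rw [Function.update_of_ne (by omega)]
  have hn1 : Function.update p (n + 1) b (n + 1) = b := Function.update_self _ _ _
  refine ⟨Function.update p (n + 1) b, ⟨?_, ?_, ?_, ?_⟩, hu⟩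
  · intro i hi j hj
    rcases Nat.lt_or_eq_of_le hi with hi' | hi' <;> rcases Nat.lt_or_eq_of_le hj with hj' | hj'
    · rw [hu i (by omega), hu j (by omega)]; exact h1 i (by omega) j (by omega)
    · rw [hu i (by omega), hj', hn1]; exact hb4 i (by omega)
    · rw [hi', hn1, hu j (by omega), add_comm]; exact hb4 j (by omega)
    · rw [hi', hj', hn1]; exact hb3
  · intro i j hij hj
    rcases Nat.lt_or_eq_of_le hj with hj' | hj'
    · rw [hu i (by omega), hu j (by omega)]; exact h2 i j hij (by omega)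
    · rw [hj', hn1, hu i (by omega)]; exact (hm i (by omega)).trans_lt hb1
  · rw [hu 0 (by omega)]; exact h3
  · intro i hi
    rcases Nat.lt_or_eq_of_le hi with hi' | hi'
    · rw [hu i (by omega)]; exact h4 i (by omega)
    · rw [hi', hn1]
      have h5 := h4 n le_rfl
      have h6 : BB (Nat.sqrt (n + 2) + 1) ≤ BB (Nat.sqrt (n + 1 + 2) + 1) :=
        BB_mono _ _ (Nat.succ_le_succ (Nat.sqrt_le_sqrt (by omega)))
      calc b ≤ p n + BB (Nat.sqrt (n + 2) + 1) := hb2
        _ ≤ (n + 1) * BB (Nat.sqrt (n + 2) + 1) + BB (Nat.sqrt (n + 2) + 1) := Nat.add_le_add_right h5 _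
        _ = (n + 1 + 1) * BB (Nat.sqrt (n + 2) + 1) := by ring
        _ ≤ (n + 1 + 1) * BB (Nat.sqrt (n + 1 + 2) + 1) := Nat.mul_le_mul_left _ h6

theorem chain : ∃ a : ℕ → ℕ, StrictMono a ∧ 0 < a 0 ∧ (∀ i j, Squarefree (a i + a j)) ∧
    ∀ n, a n ≤ (n + 1) * BB (Nat.sqrt (n + 2) + 1) := by
  have hs := chain_step
  choose! nxt hn1 hn2 using hs
  let G : ℕ → (ℕ → ℕ) := fun n => Nat.rec (fun _ => 1) (fun n p => nxt n p) n
  have hG : ∀ n, Inv n (G n) := by
    intro n
    induction n with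
    | zero => exact chain_start
    | succ n ih => exact hn1 n (G n) ih
  have hGs : ∀ n, ∀ i ≤ n, G (n + 1) i = G n i := fun n => hn2 n (G n) (hG n)
  have hGi : ∀ n, ∀ i ≤ n, G n i = G i i := by
    intro n
    induction n with
    | zero => intro i hi; rw [Nat.le_zero.mp hi]
    | succ n ih =>
      intro i hi
      rcases Nat.lt_or_eq_of_le hi with h | h
      · rw [hGs n i (by omega)]; exact ih i (by omega)
      · rw [h]
  refine ⟨fun n => G n n, ?_, ?_, ?_, ?_⟩
  · refine strictMono_nat_of_lt_succ fun n => ?_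
    show G n n < G (n + 1) (n + 1)
    rw [← hGs n n le_rfl]
    exact (hG (n + 1)).2.1 n (n + 1) (Nat.lt_succ_self n) le_rfl
  · show 0 < G 0 0
    rw [(hG 0).2.2.1]; exact Nat.one_pos
  · intro i j
    show Squarefree (G i i + G j j)
    rw [← hGi (max i j) i (le_max_left _ _), ← hGi (max i j) j (le_max_right _ _)]
    exact (hG (max i j)).1 i (le_max_left _ _) j (le_max_right _ _)
  · intro n
    exact (hG n).2.2.2 n le_rfl

end SQF
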