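import Pool.Agent.Helper353.SQF.Defs

set_option autoImplicit false

open Finset

namespace SQF



theorem aux_logBB (h : ℕ) (hh : 1 ≤ h) : Real.log ((BB h : ℕ) : ℝ) =
    h * Real.log 256 + (Real.log 256 + 6 * Real.log h + h * Real.log 1024 +
      (4 * h : ℝ) * (Real.log 16 + 4 * Real.log h)) := by
  have hpos : (0 : ℝ) < (h : ℝ) := by exact_mod_cast hh
  have hne : (h : ℝ) ≠ 0 := hpos.ne'
  unfold BB RR
  push_cast
  have h1 : ((256 : ℝ) ^ h) ≠ 0 := pow_ne_zero _ (by norm_num)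
  have h2 : ((h : ℝ) ^ 6) ≠ 0 := pow_ne_zero _ hne
  have h3 : ((1024 : ℝ) ^ h) ≠ 0 := pow_ne_zero _ (by norm_num)
  have h4 : ((h : ℝ) ^ 4) ≠ 0 := pow_ne_zero _ hne
  have h5 : ((16 : ℝ) * (h : ℝ) ^ 4) ≠ 0 := mul_ne_zero (by norm_num) h4
  have h6 : (((16 : ℝ) * (h : ℝ) ^ 4) ^ (4 * h)) ≠ 0 := pow_ne_zero _ h5
  have h7 : ((256 : ℝ) * (h : ℝ) ^ 6) ≠ 0 := mul_ne_zero (by norm_num) h2
  have h8 : ((256 : ℝ) * (h : ℝ) ^ 6 * 1024 ^ h) ≠ 0 := mul_ne_zero h7 h3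
  have h9 : ((256 : ℝ) * (h : ℝ) ^ 6 * 1024 ^ h * ((16 : ℝ) * (h : ℝ) ^ 4) ^ (4 * h)) ≠ 0 :=
    mul_ne_zero h8 h6
  rw [Real.log_mul h1 h9, Real.log_mul h8 h6, Real.log_mul h7 h3,
    Real.log_mul (by norm_num) h2, Real.log_pow, Real.log_pow, Real.log_pow, Real.log_pow,
    Real.log_mul (by norm_num) h4, Real.log_pow]
  push_cast
  ring

theorem aux_BB_pos (h : ℕ) (hh : 1 ≤ h) : (0 : ℝ) < ((BB h : ℕ) : ℝ) := by
  have : 0 < BB h := by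
    unfold BB RR
    have : 0 < h := hh
    positivity
  exact_mod_cast this

theorem aux_num (h s L lh ln l2 : ℝ) (hh : 0 ≤ h) (hs : 1 ≤ s) (hL : 0 ≤ L) (h3 : h ≤ 3 * s)
    (hlh : lh ≤ L) (hln : ln ≤ L) (hl2 : l2 ≤ L) :
    ln + (h * (8 * l2) + (8 * l2 + 6 * lh + h * (10 * l2) + (4 * h) * (4 * l2 + 4 * lh))) ≤
      1000 * s * L := by
  have a1 : h * l2 ≤ h * L := mul_le_mul_of_nonneg_left hl2 hh
  have a2 : h * lh ≤ h * L := mul_le_mul_of_nonneg_left hlh hh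
  have a3 : h * L ≤ 3 * s * L := mul_le_mul_of_nonneg_right h3 hL
  have a4 : L ≤ s * L := by
    have := mul_le_mul_of_nonneg_right hs hL
    linarith
  have a5 : 0 ≤ s * L := mul_nonneg (by linarith) hL
  nlinarith [a1, a2, a3, a4, a5]

theorem fin_bound (n : ℕ) : (((n + 1) * BB (Nat.sqrt (n + 2) + 1) : ℕ) : ℝ) ≤
    Real.exp (1000 * Real.sqrt (n + 1) * Real.log (n + 2)) := by
  obtain ⟨h, hdef⟩ : ∃ h : ℕ, h = Nat.sqrt (n + 2) + 1 := ⟨_, rfl⟩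
  rw [← hdef]
  have hh1 : 1 ≤ h := by omega
  have hBpos := aux_BB_pos h hh1
  have hn1 : (0 : ℝ) < (n : ℝ) + 1 := by positivity
  have hlog := aux_logBB h hh1
  have hhle : h ≤ n + 2 := by
    rw [hdef]
    have : Nat.sqrt (n + 2) < n + 2 := Nat.sqrt_lt_self (by omega)
    omega
  have hsq : Nat.sqrt (n + 2) * Nat.sqrt (n + 2) ≤ n + 2 := Nat.sqrt_le (n + 2)
  push_cast
  rw [← Real.exp_log (mul_pos hn1 hBpos)]
  apply Real.exp_le_exp.mpr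
  rw [Real.log_mul hn1.ne' hBpos.ne', hlog]
  have e256 : Real.log 256 = 8 * Real.log 2 := by
    rw [show (256 : ℝ) = 2 ^ 8 by norm_num, Real.log_pow]; norm_num
  have e1024 : Real.log 1024 = 10 * Real.log 2 := by
    rw [show (1024 : ℝ) = 2 ^ 10 by norm_num, Real.log_pow]; norm_num
  have e16 : Real.log 16 = 4 * Real.log 2 := by
    rw [show (16 : ℝ) = 2 ^ 4 by norm_num, Real.log_pow]; norm_num
  rw [e256, e1024, e16]
  have hs1 : (1 : ℝ) ≤ Real.sqrt ((n : ℝ) + 1) := by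
    rw [show (1 : ℝ) = Real.sqrt 1 by rw [Real.sqrt_one]]
    apply Real.sqrt_le_sqrt
    have : (0 : ℝ) ≤ (n : ℝ) := Nat.cast_nonneg n
    rw [Real.sqrt_one]
    linarith
  have hnn : (0 : ℝ) ≤ (n : ℝ) := Nat.cast_nonneg n
  have hL : 0 ≤ Real.log ((n : ℝ) + 2) := Real.log_nonneg (by linarith)
  have hl2 : Real.log 2 ≤ Real.log ((n : ℝ) + 2) := Real.log_le_log (by norm_num) (by linarith)
  have hln : Real.log ((n : ℝ) + 1) ≤ Real.log ((n : ℝ) + 2) :=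
    Real.log_le_log hn1 (by linarith)
  have hlh : Real.log (h : ℝ) ≤ Real.log ((n : ℝ) + 2) := by
    apply Real.log_le_log (by exact_mod_cast hh1)
    exact_mod_cast hhle
  have hh3 : (h : ℝ) ≤ 3 * Real.sqrt ((n : ℝ) + 1) := by
    have hx : ((Nat.sqrt (n + 2) : ℕ) : ℝ) ≤ 2 * Real.sqrt ((n : ℝ) + 1) := by
      have hsqr : ((Nat.sqrt (n + 2) : ℕ) : ℝ) * ((Nat.sqrt (n + 2) : ℕ) : ℝ) ≤ (n : ℝ) + 2 := by
        exact_mod_cast hsq
      have hss : Real.sqrt ((n : ℝ) + 1) * Real.sqrt ((n : ℝ) + 1) = (n : ℝ) + 1 :=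
        Real.mul_self_sqrt hn1.le
      by_contra hcon
      push Not at hcon
      have hlt := mul_self_lt_mul_self (by positivity) hcon
      nlinarith
    have : (h : ℝ) = ((Nat.sqrt (n + 2) : ℕ) : ℝ) + 1 := by
      rw [hdef]; push_cast; ring
    rw [this]
    linarith
  exact aux_num (h : ℝ) (Real.sqrt ((n : ℝ) + 1)) (Real.log ((n : ℝ) + 2)) (Real.log (h : ℝ))
    (Real.log ((n : ℝ) + 1)) (Real.log 2) (Nat.cast_nonneg h) hs1 hL hh3 hlh hln hl2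

end SQF
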